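import Mathlib

set_option autoImplicit false

/-!
# Stabilizer vectors, relaxed form, and their closure properties

For a finite abelian group `V` (in the applications `V = (ZMod 2)^n`) the Pauli operators on
functions `V → ℂ` are `f ↦ (x ↦ c (-1)^{b x} f (x + a))`, `c ^ 4 = 1`.  A vector `φ` is a stabilizer
vector in the relaxed sense if every vector fixed by all the Pauli operators which fix `φ` is a
multiple of `φ`.
-/

namespace Pool.Agent.E8helper15.SR

open Finset

/-- the sign `(-1)^t`, `t : ZMod 2` -/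
noncomputable def sg (t : ZMod 2) : ℂ := if t = 0 then 1 else -1

@[simp] lemma sg_zero : sg 0 = 1 := by simp [sg]
@[simp] lemma sg_one : sg 1 = -1 := by simp [sg]

lemma zmod2_cases (t : ZMod 2) : t = 0 ∨ t = 1 := by
  revert t; decide

lemma sg_add (s t : ZMod 2) : sg (s + t) = sg s * sg t := by
  rcases zmod2_cases s with rfl | rfl <;> rcases zmod2_cases t with rfl | rfl <;>
    simp [show (1 : ZMod 2) + 1 = 0 from rfl]

lemma sg_mul_self (s : ZMod 2) : sg s * sg s = 1 := by
  rcases zmod2_cases s with rfl | rfl <;> simp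

lemma sg_ne_zero (s : ZMod 2) : sg s ≠ 0 := by
  rcases zmod2_cases s with rfl | rfl <;> simp

lemma sg_sq (s : ZMod 2) : sg s ^ 2 = 1 := by rw [sq, sg_mul_self]

lemma sg_pow4 (s : ZMod 2) : sg s ^ 4 = 1 := by
  rw [show (4 : ℕ) = 2 * 2 from rfl, pow_mul, sg_sq, one_pow]

lemma sg_neg (s : ZMod 2) : sg (-s) = sg s := by
  rcases zmod2_cases s with rfl | rfl <;> simp [show (-1 : ZMod 2) = 1 from rfl]

section

variable {V W : Type} [AddCommGroup V] [AddCommGroup W]

/-- The Pauli operator with data `a`, `b`, `c`. -/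
def IsW (a : V) (b : V →+ ZMod 2) (c : ℂ) (g : (V → ℂ) ≃ₗ[ℂ] (V → ℂ)) : Prop :=
  ∀ f x, g f x = c * sg (b x) * f (x + a)

/-- The Pauli operator as a linear automorphism. -/
noncomputable def wEquiv (a : V) (b : V →+ ZMod 2) (c : ℂ) (hc : c ≠ 0) :
    (V → ℂ) ≃ₗ[ℂ] (V → ℂ) where
  toFun f x := c * sg (b x) * f (x + a)
  map_add' f g := by
    funext x
    simp only [Pi.add_apply]
    ring
  map_smul' t f := by
    funext x
    simp only [Pi.smul_apply, smul_eq_mul, RingHom.id_apply]
    ring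
  invFun f x := c⁻¹ * sg (b (x - a)) * f (x - a)
  left_inv f := by
    funext x
    simp only [sub_add_cancel]
    have := sg_mul_self (b (x - a))
    calc c⁻¹ * sg (b (x - a)) * (c * sg (b (x - a)) * f x)
        = (c⁻¹ * c) * (sg (b (x - a)) * sg (b (x - a))) * f x := by ring
      _ = f x := by rw [inv_mul_cancel₀ hc, this]; ring
  right_inv f := by
    funext x
    simp only [add_sub_cancel_right]
    have := sg_mul_self (b x)
    calc c * sg (b x) * (c⁻¹ * sg (b x) * f x)
        = (c * c⁻¹) * (sg (b x) * sg (b x)) * f x := by ring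
      _ = f x := by rw [mul_inv_cancel₀ hc, this]; ring

lemma wEquiv_isW (a : V) (b : V →+ ZMod 2) (c : ℂ) (hc : c ≠ 0) : IsW a b c (wEquiv a b c hc) :=
  fun _ _ => rfl

lemma ne_zero_of_pow4 {c : ℂ} (hc : c ^ 4 = 1) : c ≠ 0 := by
  rintro rfl
  norm_num at hc

variable (V) in
/-- The Pauli group on functions on `V`. -/
def PG : Subgroup ((V → ℂ) ≃ₗ[ℂ] (V → ℂ)) where
  carrier := {g | ∃ (a : V) (b : V →+ ZMod 2) (c : ℂ), c ^ 4 = 1 ∧ IsW a b c g}
  one_mem' := ⟨0, 0, 1, by norm_num, fun f x => by simp⟩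
  mul_mem' := by
    rintro g h ⟨a, b, c, hc, hg⟩ ⟨a', b', c', hc', hh⟩
    refine ⟨a + a', b + b', c * c' * sg (b' a), ?_, fun f x => ?_⟩
    · rw [mul_pow, mul_pow, hc, hc', sg_pow4]; ring
    · rw [LinearEquiv.mul_apply, hg, hh, AddMonoidHom.add_apply, sg_add, map_add, sg_add, add_assoc]
      ring
  inv_mem' := by
    rintro g ⟨a, b, c, hc, hg⟩
    have hc0 := ne_zero_of_pow4 hc
    refine ⟨-a, b, c⁻¹ * sg (b a), ?_, fun f x => ?_⟩
    · rw [mul_pow, inv_pow, hc, sg_pow4]; norm_num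
    · have h1 : g = wEquiv a b c hc0 := by
        ext f x
        rw [hg, wEquiv_isW]
      subst h1
      have h2 : (wEquiv a b c hc0)⁻¹ f x = c⁻¹ * sg (b (x - a)) * f (x - a) := rfl
      rw [h2, ← sub_eq_add_neg, map_sub, sub_eq_add_neg (b x), sg_add, sg_neg]
      ring

/-- Stabilizer vectors in the relaxed sense. -/
def IsStab (φ : V → ℂ) : Prop :=
  ∀ ψ : V → ℂ, (∀ g ∈ PG V, g φ = φ → g ψ = ψ) → ∃ t : ℂ, ψ = t • φ

lemma isStab_iff (φ : V → ℂ) : IsStab φ ↔
    ∀ ψ : V → ℂ, (∀ (a : V) (b : V →+ ZMod 2) (c : ℂ), c ^ 4 = 1 →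
      (∀ x, c * sg (b x) * φ (x + a) = φ x) → ∀ x, c * sg (b x) * ψ (x + a) = ψ x) →
      ∃ t : ℂ, ψ = t • φ := by
  constructor
  · intro h ψ hψ
    refine h ψ ?_
    rintro g ⟨a, b, c, hc, hg⟩ hgφ
    funext x
    rw [hg]
    refine hψ a b c hc (fun x => ?_) x
    rw [← hg, hgφ]
  · intro h ψ hψ
    refine h ψ fun a b c hc hφ x => ?_
    have h1 := hψ (wEquiv a b c (ne_zero_of_pow4 hc)) ⟨a, b, c, hc, wEquiv_isW _ _ _ _⟩ (by
      funext x
      rw [wEquiv_isW]
      exact hφ x)
    have h2 := congrFun h1 x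
    rwa [wEquiv_isW] at h2

/-- (E1) extension by a constant in further variables -/
lemma IsStab.ext {φ : V → ℂ} (h : IsStab φ) : IsStab fun p : V × W => φ p.1 := by
  rw [isStab_iff] at h ⊢
  intro ψ hψ
  have h1 : ∀ z w, ψ (z, w) = ψ (z, 0) := by
    intro z w
    have := hψ (0, w) 0 1 (by norm_num) (by simp) (z, 0)
    simpa using this
  obtain ⟨t, ht⟩ := h (fun z => ψ (z, 0)) (by
    intro a b c hc hφ x
    have := hψ (a, 0) (b.comp (AddMonoidHom.fst V W)) c hc (by
      rintro ⟨x, y⟩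
      simpa using hφ x) (x, 0)
    simpa using this)
  refine ⟨t, ?_⟩
  funext ⟨z, w⟩
  rw [h1]
  have := congrFun ht z
  simpa using this

/-- quadratic functions: all derivatives are affine -/
def IsQuad (q : V → ZMod 2) : Prop :=
  ∀ a : V, ∃ (b : V →+ ZMod 2) (s : ZMod 2), ∀ x, q (x + a) = q x + b x + s

/-- (E2) multiplication by the sign of a quadratic function -/
lemma IsStab.diag {φ : V → ℂ} (h : IsStab φ) {q : V → ZMod 2} (hq : IsQuad q) :
    IsStab fun x => sg (q x) * φ x := by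
  rw [isStab_iff] at h ⊢
  intro ψ hψ
  obtain ⟨t, ht⟩ := h (fun x => sg (q x) * ψ x) (by
    intro a b c hc hφ x
    obtain ⟨b', s, hb'⟩ := hq a
    have h1 := hψ a (b + b') (c * sg s) (by rw [mul_pow, hc, sg_pow4, one_mul]) (by
      intro x
      rw [hb' x, sg_add, sg_add, AddMonoidHom.add_apply, sg_add]
      have e1 := sg_mul_self s
      have e2 := sg_mul_self (b' x)
      calc c * sg s * (sg (b x) * sg (b' x)) * (sg (q x) * sg (b' x) * sg s * φ (x + a))
          = (sg s * sg s) * (sg (b' x) * sg (b' x)) * sg (q x) * (c * sg (b x) * φ (x + a)) := by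
            ring
        _ = sg (q x) * φ x := by rw [e1, e2, hφ]; ring) x
    rw [hb' x, sg_add, sg_add]
    have e3 : c * sg s * (sg (b x) * sg (b' x)) * ψ (x + a) = ψ x := by
      rw [← h1, AddMonoidHom.add_apply, sg_add]
    calc c * sg (b x) * (sg (q x) * sg (b' x) * sg s * ψ (x + a))
        = sg (q x) * (c * sg s * (sg (b x) * sg (b' x)) * ψ (x + a)) := by ring
      _ = sg (q x) * ψ x := by rw [e3])
  refine ⟨t, ?_⟩
  funext x
  have h1 := congrFun ht x
  simp only [Pi.smul_apply, smul_eq_mul] at h1 ⊢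
  have e1 := sg_mul_self (q x)
  calc ψ x = (sg (q x) * sg (q x)) * ψ x := by rw [e1, one_mul]
    _ = sg (q x) * (sg (q x) * ψ x) := by ring
    _ = t * (sg (q x) * φ x) := by rw [h1]; ring

end

section

variable {V W : Type} [AddCommGroup V] [AddCommGroup W]

lemma sum_sg_eq_zero [Fintype W] (b : W →+ ZMod 2) (hb : b ≠ 0) : ∑ y, sg (b y) = 0 := by
  obtain ⟨w, hw⟩ : ∃ w, b w ≠ 0 := by
    by_contra h
    push Not at h
    exact hb (AddMonoidHom.ext h)
  have hw1 : b w = 1 := (zmod2_cases _).resolve_left hw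
  have h1 : ∑ y, sg (b (y + w)) = ∑ y, sg (b y) :=
    Fintype.sum_equiv (Equiv.addRight w) _ _ (fun y => rfl)
  have h2 : ∑ y, sg (b (y + w)) = -∑ y, sg (b y) := by
    rw [← Finset.sum_neg_distrib]
    refine Finset.sum_congr rfl fun y _ => ?_
    rw [map_add, sg_add, hw1, sg_one]
    ring
  rw [h1] at h2
  have h3 : (2 : ℂ) * ∑ y, sg (b y) = 0 := by linear_combination h2
  simpa using h3

variable [Finite V] [Fintype W]

instance finitePG : Finite (PG V) := by
  classical
  have hfin4 : {c : ℂ | c ^ 4 = 1}.Finite := by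
    have : {c : ℂ | c ^ 4 = 1} ⊆ ((Polynomial.X ^ 4 - 1 : Polynomial ℂ).roots.toFinset : Set ℂ) := by
      intro c hc
      rw [Set.mem_ofPred_eq] at hc
      simp only [Finset.mem_coe, Multiset.mem_toFinset]
      rw [Polynomial.mem_roots]
      · simp [hc]
      · intro h
        have := congrArg Polynomial.natDegree h
        rw [show (1 : Polynomial ℂ) = Polynomial.C 1 by simp, Polynomial.natDegree_X_pow_sub_C] at this
        simp at this
    exact (Finset.finite_toSet _).subset this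
  have : Finite (V →+ ZMod 2) := Finite.of_injective (fun f => (f : V → ZMod 2)) DFunLike.coe_injective
  have : Finite {c : ℂ | c ^ 4 = 1} := hfin4
  let F : V × (V →+ ZMod 2) × {c : ℂ | c ^ 4 = 1} → PG V := fun t =>
    ⟨wEquiv t.1 t.2.1 t.2.2.1 (ne_zero_of_pow4 t.2.2.2), t.1, t.2.1, t.2.2.1, t.2.2.2,
      wEquiv_isW _ _ _ _⟩
  refine Finite.of_surjective F ?_
  rintro ⟨g, a, b, c, hc, hg⟩
  refine ⟨(a, b, ⟨c, hc⟩), ?_⟩
  apply Subtype.ext
  ext f x
  have h1 : wEquiv a b c (ne_zero_of_pow4 hc) f x = g f x := by rw [wEquiv_isW, hg]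
  exact h1

/-- (E3) summation over some of the variables -/
lemma IsStab.sum {φ : V × W → ℂ} (h : IsStab φ) : IsStab fun x : V => ∑ y : W, φ (x, y) := by
  classical
  intro ψ hψ
  -- the stabilizer group
  let G : Subgroup ((V × W → ℂ) ≃ₗ[ℂ] (V × W → ℂ)) := PG (V × W) ⊓
    { carrier := {g | g φ = φ}
      one_mem' := rfl
      mul_mem' := by
        intro a b (ha : a φ = φ) (hb : b φ = φ)
        change (a * b) φ = φ
        rw [LinearEquiv.mul_apply, hb, ha]
      inv_mem' := by
        intro a (ha : a φ = φ)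
        change a⁻¹ φ = φ
        calc a⁻¹ φ = a⁻¹ (a φ) := by rw [ha]
          _ = (a⁻¹ * a) φ := rfl
          _ = φ := by rw [inv_mul_cancel]; rfl }
  have hGfin : Finite G := Finite.of_injective (fun g : G => (⟨g.1, g.2.1⟩ : PG (V × W)))
    (fun g g' hgg => Subtype.ext (congrArg (fun t : PG (V × W) => t.1) hgg))
  let _ : Fintype G := Fintype.ofFinite G
  let ψ' : V × W → ℂ := fun p => ψ p.1
  let Φ : V × W → ℂ := ∑ g : G, g.1 ψ'
  have hΦ : ∀ g ∈ PG (V × W), g φ = φ → g Φ = Φ := by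
    intro g hg hgφ
    have hgG : g ∈ G := ⟨hg, hgφ⟩
    change g (∑ k : G, k.1 ψ') = ∑ k : G, k.1 ψ'
    rw [map_sum]
    exact Fintype.sum_equiv (Equiv.mulLeft (⟨g, hgG⟩ : G)) _ _ (fun k => rfl)
  obtain ⟨t, ht⟩ := h Φ hΦ
  -- each term summed over `y`
  have key : ∀ g : G, (∀ x, ∑ y : W, g.1 ψ' (x, y) = Fintype.card W * ψ x) ∨
      (∀ x, ∑ y : W, g.1 ψ' (x, y) = 0) := by
    rintro ⟨g, ⟨a, b, c, hc, hg⟩, hgφ : g φ = φ⟩
    have hb : ∀ x y, b (x, y) = b (x, 0) + b (0, y) := by
      intro x y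
      rw [← map_add]
      simp
    by_cases hb0 : b.comp (AddMonoidHom.inr V W) = 0
    · left
      have hb1 : ∀ y, b (0, y) = 0 := fun y => by
        have := DFunLike.congr_fun hb0 y
        simpa using this
      have h1 : wEquiv a.1 (b.comp (AddMonoidHom.inl V W)) c (ne_zero_of_pow4 hc) ψ = ψ := by
        refine hψ _ ⟨_, _, c, hc, wEquiv_isW _ _ _ _⟩ ?_
        funext x
        rw [wEquiv_isW]
        calc c * sg ((b.comp (AddMonoidHom.inl V W)) x) * ∑ y, φ (x + a.1, y)
            = c * sg (b (x, 0)) * ∑ y, φ (x + a.1, y + a.2) := by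
              congr 1
              exact (Fintype.sum_equiv (Equiv.addRight a.2) _ _ (fun y => rfl)).symm
          _ = ∑ y, c * sg (b (x, y)) * φ ((x, y) + a) := by
              rw [Finset.mul_sum]
              refine Finset.sum_congr rfl fun y _ => ?_
              rw [hb x y, hb1 y, add_zero]
              rfl
          _ = ∑ y, φ (x, y) := by
              refine Finset.sum_congr rfl fun y _ => ?_
              rw [← hg, hgφ]
      intro x
      have h2 : ∀ y : W, g ψ' (x, y) = ψ x := by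
        intro y
        rw [hg, hb x y, hb1 y, add_zero]
        have h3 := congrFun h1 x
        rw [wEquiv_isW] at h3
        exact h3
      simp only [h2]
      simp
    · right
      intro x
      have h2 : ∀ y : W, g ψ' (x, y) = (c * sg (b (x, 0)) * ψ (x + a.1)) *
          sg ((b.comp (AddMonoidHom.inr V W)) y) := by
        intro y
        rw [hg, hb x y, sg_add]
        change c * (sg (b (x, 0)) * sg (b (0, y))) * ψ (x + a.1) =
          c * sg (b (x, 0)) * ψ (x + a.1) * sg (b (0, y))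
        ring
      simp only [h2]
      rw [← Finset.mul_sum, sum_sg_eq_zero _ hb0, mul_zero]
  -- the number of terms of the first kind
  let N : ℕ := (Finset.univ.filter fun g : G => ∀ x, ∑ y : W, g.1 ψ' (x, y) =
    Fintype.card W * ψ x).card
  have hN : N ≠ 0 := by
    have : (1 : G) ∈ Finset.univ.filter fun g : G => ∀ x, ∑ y : W, g.1 ψ' (x, y) =
        Fintype.card W * ψ x := by
      rw [Finset.mem_filter]
      refine ⟨Finset.mem_univ _, fun x => ?_⟩
      change ∑ y : W, ψ x = _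
      simp
    exact Finset.card_ne_zero_of_mem this
  have hsum : ∀ x, ∑ y : W, Φ (x, y) = N * (Fintype.card W * ψ x) := by
    intro x
    have h1 : ∀ y, Φ (x, y) = ∑ g : G, g.1 ψ' (x, y) := by
      intro y
      change (∑ g : G, g.1 ψ') (x, y) = _
      rw [Finset.sum_apply]
    simp only [h1]
    rw [Finset.sum_comm, ← Finset.sum_filter_add_sum_filter_not Finset.univ
      (fun g : G => ∀ x, ∑ y : W, g.1 ψ' (x, y) = Fintype.card W * ψ x)]
    have h2 : ∑ g ∈ Finset.univ.filter (fun g : G => ∀ x, ∑ y : W, g.1 ψ' (x, y) =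
        Fintype.card W * ψ x), ∑ y, g.1 ψ' (x, y) = N * (Fintype.card W * ψ x) := by
      rw [Finset.sum_congr rfl (g := fun _ => (Fintype.card W * ψ x : ℂ)) (fun g hg => by
        have h4 := (Finset.mem_filter.1 hg).2
        exact h4 x), Finset.sum_const, nsmul_eq_mul]
    have h3 : ∑ g ∈ Finset.univ.filter (fun g : G => ¬ ∀ x, ∑ y : W, g.1 ψ' (x, y) =
        Fintype.card W * ψ x), ∑ y, g.1 ψ' (x, y) = 0 := by
      refine Finset.sum_eq_zero fun g hg => ?_
      exact ((key g).resolve_left (Finset.mem_filter.1 hg).2) x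
    rw [h2, h3, add_zero]
  have hW : (Fintype.card W : ℂ) ≠ 0 := by
    have : 0 < Fintype.card W := Fintype.card_pos_iff.2 ⟨0⟩
    exact_mod_cast this.ne'
  refine ⟨t / (N * Fintype.card W), ?_⟩
  funext x
  have h1 := hsum x
  rw [ht] at h1
  simp only [Pi.smul_apply, smul_eq_mul] at h1 ⊢
  rw [← Finset.mul_sum] at h1
  have hN' : (N : ℂ) ≠ 0 := by exact_mod_cast hN
  field_simp
  rw [h1]
  ring

end

end Pool.Agent.E8helper15.SR
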