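import Pool.Agent.E8helper15.SR.Core

set_option autoImplicit false

/-!
# Counting the stabilizer vectors up to scalars, and vectors with two values in a subspace
-/

namespace Pool.Agent.E8helper15.SR

open Finset

section group

variable {H : Type*} [Group H] [Finite H]

lemma exists_gens_aux (K : Subgroup H) (j : ℕ) : ∃ s : Fin j → H,
    Subgroup.closure (Set.range s) ≤ K ∧
    (Subgroup.closure (Set.range s) = K ∨ 2 ^ j ≤ Nat.card (Subgroup.closure (Set.range s))) := by
  induction j with
  | zero =>
    refine ⟨Fin.elim0, ?_, ?_⟩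
    · rw [Subgroup.closure_le]
      rintro _ ⟨i, _⟩
      exact i.elim0
    · right
      rw [pow_zero]
      exact Nat.card_pos
  | succ j ih =>
    obtain ⟨s, hs, h⟩ := ih
    rcases h with h | h
    · refine ⟨Fin.cons 1 s, ?_, ?_⟩
      · rw [Subgroup.closure_le]
        rintro _ ⟨i, rfl⟩
        refine Fin.cases ?_ (fun i => ?_) i
        · exact K.one_mem
        · exact hs (Subgroup.subset_closure ⟨i, by simp⟩)
      · left
        apply le_antisymm
        · rw [Subgroup.closure_le]
          rintro _ ⟨i, rfl⟩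
          refine Fin.cases ?_ (fun i => ?_) i
          · exact K.one_mem
          · exact hs (Subgroup.subset_closure ⟨i, by simp⟩)
        · rw [← h]
          apply Subgroup.closure_mono
          rintro _ ⟨i, rfl⟩
          exact ⟨i.succ, by simp⟩
    · by_cases hK : Subgroup.closure (Set.range s) = K
      · refine ⟨Fin.cons 1 s, ?_, ?_⟩
        · rw [Subgroup.closure_le]
          rintro _ ⟨i, rfl⟩
          refine Fin.cases ?_ (fun i => ?_) i
          · exact K.one_mem
          · exact hs (Subgroup.subset_closure ⟨i, by simp⟩)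
        · left
          apply le_antisymm
          · rw [Subgroup.closure_le]
            rintro _ ⟨i, rfl⟩
            refine Fin.cases ?_ (fun i => ?_) i
            · exact K.one_mem
            · exact hs (Subgroup.subset_closure ⟨i, by simp⟩)
          · rw [← hK]
            apply Subgroup.closure_mono
            rintro _ ⟨i, rfl⟩
            exact ⟨i.succ, by simp⟩
      · obtain ⟨g, hgK, hg⟩ : ∃ g ∈ K, g ∉ Subgroup.closure (Set.range s) := by
          by_contra hcon
          push Not at hcon
          exact hK (le_antisymm hs hcon)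
        have hle : Subgroup.closure (Set.range s) ≤ Subgroup.closure (Set.range (Fin.cons g s :
            Fin (j + 1) → H)) := by
          apply Subgroup.closure_mono
          rintro _ ⟨i, rfl⟩
          exact ⟨i.succ, by simp⟩
        have hgm : g ∈ Subgroup.closure (Set.range (Fin.cons g s : Fin (j + 1) → H)) :=
          Subgroup.subset_closure ⟨0, by simp⟩
        refine ⟨Fin.cons g s, ?_, Or.inr ?_⟩
        · rw [Subgroup.closure_le]
          rintro _ ⟨i, rfl⟩
          refine Fin.cases ?_ (fun i => ?_) i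
          · exact hgK
          · exact hs (Subgroup.subset_closure ⟨i, by simp⟩)
        · obtain ⟨k, hk⟩ := Subgroup.card_dvd_of_le hle
          have hpos : 0 < Nat.card (Subgroup.closure (Set.range (Fin.cons g s :
            Fin (j + 1) → H))) := Nat.card_pos
          have hk2 : 2 ≤ k := by
            rcases Nat.lt_or_ge k 2 with h2 | h2
            · exfalso
              interval_cases k
              · omega
              · rw [mul_one] at hk
                have := Subgroup.eq_of_le_of_card_ge hle hk.le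
                exact hg (this ▸ hgm)
            · exact h2
          rw [hk, pow_succ]
          exact Nat.mul_le_mul h hk2

lemma exists_gens {N : ℕ} (hN : Nat.card H ≤ 2 ^ N) (K : Subgroup H) :
    ∃ s : Fin N → H, Subgroup.closure (Set.range s) = K := by
  obtain ⟨s, hs, h | h⟩ := exists_gens_aux K N
  · exact ⟨s, h⟩
  · exact ⟨s, Subgroup.eq_of_le_of_card_ge hs ((Subgroup.card_le_card_group K).trans (hN.trans h))⟩

end group

section

variable {V : Type} [AddCommGroup V]

/-- the Pauli operators fixing `φ` -/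
def fixer (φ : V → ℂ) : Subgroup (PG V) where
  carrier := {g | g.1 φ = φ}
  one_mem' := rfl
  mul_mem' := by
    intro a b (ha : a.1 φ = φ) (hb : b.1 φ = φ)
    change (a.1 * b.1) φ = φ
    rw [LinearEquiv.mul_apply, hb, ha]
  inv_mem' := by
    intro a (ha : a.1 φ = φ)
    change a.1⁻¹ φ = φ
    calc a.1⁻¹ φ = a.1⁻¹ (a.1 φ) := by rw [ha]
      _ = (a.1⁻¹ * a.1) φ := rfl
      _ = φ := by rw [inv_mul_cancel]; rfl

open Classical in
/-- a representative of the stabilizer vectors whose stabilizer is generated by `s` -/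
noncomputable def rep {N : ℕ} (s : Fin N → PG V) : V → ℂ :=
  if h : ∃ φ : V → ℂ, IsStab φ ∧ fixer φ = Subgroup.closure (Set.range s) then h.choose else 0

lemma exists_rep [Finite V] {N : ℕ} (hN : Nat.card (PG V) ≤ 2 ^ N) {φ : V → ℂ} (hφ : IsStab φ) :
    ∃ (s : Fin N → PG V) (t : ℂ), φ = t • rep s := by
  obtain ⟨s, hs⟩ := exists_gens hN (fixer φ)
  have h : ∃ φ : V → ℂ, IsStab φ ∧ fixer φ = Subgroup.closure (Set.range s) := ⟨φ, hφ, hs.symm⟩
  have h1 : rep s = h.choose := by
    unfold rep
    rw [dif_pos h]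
  obtain ⟨h2, h3⟩ := h.choose_spec
  obtain ⟨t, ht⟩ := h2 φ (by
    intro g hg hgφ
    have h4 : (⟨g, hg⟩ : PG V) ∈ fixer h.choose := hgφ
    rw [h3, hs] at h4
    exact h4)
  exact ⟨s, t, by rw [h1]; exact ht⟩

lemma pow4_cases {c : ℂ} (hc : c ^ 4 = 1) :
    c = 1 ∨ c = -1 ∨ c = Complex.I ∨ c = -Complex.I := by
  have h1 : (c - 1) * ((c + 1) * ((c - Complex.I) * (c + Complex.I))) = 0 := by
    have hI : Complex.I ^ 2 = -1 := Complex.I_sq
    calc (c - 1) * ((c + 1) * ((c - Complex.I) * (c + Complex.I)))
        = (c ^ 2 - 1) * (c ^ 2 - Complex.I ^ 2) := by ring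
      _ = c ^ 4 - 1 := by rw [hI]; ring
      _ = 0 := by rw [hc]; ring
  rcases mul_eq_zero.1 h1 with h | h
  · left; linear_combination h
  rcases mul_eq_zero.1 h with h | h
  · right; left; linear_combination h
  rcases mul_eq_zero.1 h with h | h
  · right; right; left; linear_combination h
  · right; right; right; linear_combination h

lemma card_PG_le [Finite V] : Nat.card (PG V) ≤ Nat.card V * (Nat.card (V →+ ZMod 2) * 4) := by
  have : Finite (V →+ ZMod 2) :=
    Finite.of_injective (fun f => (f : V → ZMod 2)) DFunLike.coe_injective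
  let r : Fin 4 → ℂ := ![1, -1, Complex.I, -Complex.I]
  have hr : ∀ k, r k ^ 4 = 1 := by
    intro k
    have hI : Complex.I ^ 4 = 1 := Complex.I_pow_four
    fin_cases k
    · simp [r]
    · simp [r]; norm_num
    · simp [r]
    · simp only [r]
      change (-Complex.I) ^ 4 = 1
      rw [neg_pow, hI]; norm_num
  let F : V × (V →+ ZMod 2) × Fin 4 → PG V := fun t =>
    ⟨wEquiv t.1 t.2.1 (r t.2.2) (ne_zero_of_pow4 (hr _)), t.1, t.2.1, r t.2.2, hr _,
      wEquiv_isW _ _ _ _⟩
  have hF : Function.Surjective F := by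
    rintro ⟨g, a, b, c, hc, hg⟩
    obtain ⟨k, hk⟩ : ∃ k, r k = c := by
      rcases pow4_cases hc with h | h | h | h
      · exact ⟨0, h.symm⟩
      · exact ⟨1, h.symm⟩
      · exact ⟨2, h.symm⟩
      · exact ⟨3, h.symm⟩
    subst hk
    refine ⟨(a, b, k), ?_⟩
    apply Subtype.ext
    ext f x
    have h1 : wEquiv a b (r k) (ne_zero_of_pow4 hc) f x = g f x := by rw [wEquiv_isW, hg]
    exact h1
  have := Nat.card_le_card_of_surjective F hF
  rwa [Nat.card_prod, Nat.card_prod, Nat.card_eq_fintype_card (α := Fin 4), Fintype.card_fin]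
    at this

end

section

variable (ι : Type) [Fintype ι] [DecidableEq ι]

lemma card_hom_pi_le : Nat.card ((ι → ZMod 2) →+ ZMod 2) ≤ 2 ^ Fintype.card ι := by
  have hinj : Function.Injective (fun (f : (ι → ZMod 2) →+ ZMod 2) (i : ι) => f (Pi.single i 1)) := by
    intro f g hfg
    ext i t
    have h1 : f (Pi.single i 1) = g (Pi.single i 1) := congrFun hfg i
    rcases zmod2_cases t with rfl | rfl
    · simp
    · simpa using h1
  have := Nat.card_le_card_of_injective _ hinj
  rwa [Nat.card_fun, Nat.card_zmod, Nat.card_eq_fintype_card (α := ι)] at this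

lemma card_hom_prod_le (V W : Type) [AddCommGroup V] [AddCommGroup W] [Finite V] [Finite W] :
    Nat.card (V × W →+ ZMod 2) ≤ Nat.card (V →+ ZMod 2) * Nat.card (W →+ ZMod 2) := by
  have : Finite (V →+ ZMod 2) :=
    Finite.of_injective (fun f => (f : V → ZMod 2)) DFunLike.coe_injective
  have : Finite (W →+ ZMod 2) :=
    Finite.of_injective (fun f => (f : W → ZMod 2)) DFunLike.coe_injective
  rw [← Nat.card_prod]
  refine Nat.card_le_card_of_injective (fun f : V × W →+ ZMod 2 =>
    (f.comp (AddMonoidHom.inl V W), f.comp (AddMonoidHom.inr V W))) ?_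
  intro f g hfg
  have h1 : f.comp (AddMonoidHom.inl V W) = g.comp (AddMonoidHom.inl V W) :=
    congrArg Prod.fst hfg
  have h2 : f.comp (AddMonoidHom.inr V W) = g.comp (AddMonoidHom.inr V W) :=
    congrArg Prod.snd hfg
  ext ⟨x, y⟩
  have hx := DFunLike.congr_fun h1 x
  have hy := DFunLike.congr_fun h2 y
  simp only [AddMonoidHom.comp_apply, AddMonoidHom.inl_apply, AddMonoidHom.inr_apply] at hx hy
  have e : ((x, y) : V × W) = (x, 0) + (0, y) := by simp
  rw [e, map_add, map_add, hx, hy]

lemma card_PG_two_pow : Nat.card (PG ((ι → ZMod 2) × (ι → ZMod 2))) ≤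
    2 ^ (4 * Fintype.card ι + 2) := by
  have h1 := card_PG_le (V := (ι → ZMod 2) × (ι → ZMod 2))
  have h2 := card_hom_prod_le (ι → ZMod 2) (ι → ZMod 2)
  have h3 := card_hom_pi_le ι
  have h4 : Nat.card ((ι → ZMod 2) × (ι → ZMod 2)) = 2 ^ (2 * Fintype.card ι) := by
    rw [Nat.card_prod, Nat.card_fun, Nat.card_zmod, Nat.card_eq_fintype_card, ← pow_add]
    congr 1
    ring
  calc _ ≤ _ := h1
    _ ≤ 2 ^ (2 * Fintype.card ι) * ((2 ^ Fintype.card ι * 2 ^ Fintype.card ι) * 4) := by
        rw [h4]
        gcongr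
        exact h2.trans (Nat.mul_le_mul h3 h3)
    _ = 2 ^ (4 * Fintype.card ι + 2) := by ring

end

section two_values

/-- A subspace of dimension at most `r` contains at most `2 ^ r` vectors with all entries in
`{1, 2}`. -/
lemma card_two_valued_le {X : Type} [Fintype X] (U : Submodule ℂ (X → ℂ)) (r : ℕ)
    (hr : Module.finrank ℂ U ≤ r) :
    Nat.card {A : X → Bool // (fun x => if A x then (2 : ℂ) else 1) ∈ U} ≤ 2 ^ r := by
  classical
  let ev : X → Module.Dual ℂ U := fun x => (LinearMap.proj x).comp U.subtype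
  obtain ⟨b, hbs, hspan, hli⟩ := exists_linearIndependent ℂ (Set.range ev)
  have hbfin : b.Finite := (Set.finite_range ev).subset hbs
  let _ : Fintype b := hbfin.fintype
  have hcard : Fintype.card b ≤ r := by
    have h1 := hli.fintype_card_le_finrank
    rw [Subspace.dual_finrank_eq] at h1
    exact h1.trans hr
  choose x hx using fun y : b => hbs y.2
  -- restriction to the chosen coordinates is injective
  have hinj : Function.Injective (fun (A : {A : X → Bool //
      (fun x => if A x then (2 : ℂ) else 1) ∈ U}) (y : b) => A.1 (x y)) := by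
    intro A A' h
    apply Subtype.ext
    let u : U := ⟨_, A.2⟩ - ⟨_, A'.2⟩
    have hu : ∀ y ∈ b, y u = 0 := by
      intro y hy
      have h1 := hx ⟨y, hy⟩
      change ev (x ⟨y, hy⟩) = y at h1
      rw [← h1]
      change (if A.1 (x ⟨y, hy⟩) then (2 : ℂ) else 1) - (if A'.1 (x ⟨y, hy⟩) then (2 : ℂ) else 1) = 0
      have h2 : A.1 (x ⟨y, hy⟩) = A'.1 (x ⟨y, hy⟩) := congrFun h ⟨y, hy⟩
      rw [h2, sub_self]
    have hu2 : ∀ f ∈ Submodule.span ℂ b, f u = 0 := by
      intro f hf
      induction hf using Submodule.span_induction with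
      | mem y hy => exact hu y hy
      | zero => rfl
      | add f g _ _ hf hg => rw [LinearMap.add_apply, hf, hg, add_zero]
      | smul c f _ hf => rw [LinearMap.smul_apply, hf, smul_zero]
    funext z
    have h3 : ev z u = 0 := hu2 _ (by rw [hspan]; exact Submodule.subset_span ⟨z, rfl⟩)
    change (if A.1 z then (2 : ℂ) else 1) - (if A'.1 z then (2 : ℂ) else 1) = 0 at h3
    cases hA : A.1 z <;> cases hA' : A'.1 z
    · rfl
    · rw [hA, hA'] at h3; norm_num at h3
    · rw [hA, hA'] at h3; norm_num at h3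
    · rfl
  have h1 := Nat.card_le_card_of_injective _ hinj
  rw [Nat.card_fun, Nat.card_eq_fintype_card (α := Bool), Fintype.card_bool,
    Nat.card_eq_fintype_card (α := b)] at h1
  exact h1.trans (Nat.pow_le_pow_right (by norm_num) hcard)

end two_values

/-- The counting bound: if every function with values in `{1, 2}` on `V = (ZMod 2)^(2m)` is a linear
combination of `r` stabilizer vectors, then `4 ^ m ≤ r ((4 m + 2)² + 1)`. -/
theorem counting {ι : Type} [Fintype ι] [DecidableEq ι] (r : ℕ)
    (h : ∀ A : (ι → ZMod 2) × (ι → ZMod 2) → Bool,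
      ∃ (α : Fin r → ℂ) (φ : Fin r → ((ι → ZMod 2) × (ι → ZMod 2) → ℂ)), (∀ i, IsStab (φ i)) ∧
        (fun x => if A x then (2 : ℂ) else 1) = ∑ i, α i • φ i) :
    4 ^ Fintype.card ι ≤ r * ((4 * Fintype.card ι + 2) ^ 2 + 1) := by
  classical
  set n := Fintype.card ι with hn
  set V := (ι → ZMod 2) × (ι → ZMod 2) with hV
  set N := 4 * n + 2 with hNdef
  have hPG : Nat.card (PG V) ≤ 2 ^ N := card_PG_two_pow ι
  -- for every `A` a tuple of generators
  have h1 : ∀ A : V → Bool, ∃ s : Fin r → (Fin N → PG V),
      (fun x => if A x then (2 : ℂ) else 1) ∈ Submodule.span ℂ (Set.range fun i => rep (s i)) := by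
    intro A
    obtain ⟨α, φ, hφ, hA⟩ := h A
    choose s t hst using fun i => exists_rep hPG (hφ i)
    refine ⟨s, ?_⟩
    rw [hA]
    refine Submodule.sum_mem _ fun i _ => ?_
    rw [hst i]
    exact Submodule.smul_mem _ _ (Submodule.smul_mem _ _ (Submodule.subset_span ⟨i, rfl⟩))
  choose s hs using h1
  -- the set of pairs
  let F : (V → Bool) → Σ σ : Fin r → (Fin N → PG V), {A : V → Bool //
      (fun x => if A x then (2 : ℂ) else 1) ∈ Submodule.span ℂ (Set.range fun i => rep (σ i))} :=
    fun A => ⟨s A, A, hs A⟩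
  have hF : Function.Injective F := by
    intro A A' hAA
    have : (F A).2.1 = (F A').2.1 := by rw [hAA]
    exact this
  let _ : Fintype (PG V) := Fintype.ofFinite _
  have h2 := Nat.card_le_card_of_injective F hF
  rw [Nat.card_fun, Nat.card_eq_fintype_card (α := Bool), Fintype.card_bool, Nat.card_sigma] at h2
  have h3 : ∀ σ : Fin r → (Fin N → PG V), Nat.card {A : V → Bool //
      (fun x => if A x then (2 : ℂ) else 1) ∈ Submodule.span ℂ (Set.range fun i => rep (σ i))} ≤
      2 ^ r := by
    intro σ
    apply card_two_valued_le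
    have := finrank_range_le_card (R := ℂ) (fun i => rep (σ i))
    rwa [Fintype.card_fin] at this
  have h4 : Nat.card V = 4 ^ n := by
    rw [hV, Nat.card_prod, Nat.card_fun, Nat.card_zmod, Nat.card_eq_fintype_card, ← hn, ← mul_pow]
    norm_num
  rw [h4] at h2
  have h5 : 2 ^ 4 ^ n ≤ 2 ^ (r * (N ^ 2 + 1)) := by
    calc 2 ^ 4 ^ n ≤ _ := h2
      _ ≤ ∑ σ : Fin r → (Fin N → PG V), 2 ^ r := Finset.sum_le_sum fun σ _ => h3 σ
      _ = (Nat.card (PG V) ^ N) ^ r * 2 ^ r := by
          rw [Finset.sum_const, Finset.card_univ, Fintype.card_fun, Fintype.card_fun,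
            Fintype.card_fin, Fintype.card_fin, Nat.card_eq_fintype_card, smul_eq_mul]
      _ ≤ ((2 ^ N) ^ N) ^ r * 2 ^ r := by gcongr
      _ = 2 ^ (r * (N ^ 2 + 1)) := by
          rw [← pow_mul, ← pow_mul, ← pow_add]
          congr 1
          ring
  exact (Nat.pow_le_pow_iff_right (by norm_num)).1 h5

end Pool.Agent.E8helper15.SR
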