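import Mathlib

/-!
# Stabilizer rank: the definitions

The Pauli group, the Clifford group, stabilizer states and the stabilizer rank on
`V_d = (ℂ²)^{⊗d}`, and the vectors `v^{⊗d}`, `v = e_0 + √2 e_1`.
-/

set_option autoImplicit false

namespace Pool.Agent.E8helper15.StabRank

open Matrix

/-- The Pauli matrix `X`. -/
noncomputable def pauliX : Matrix.unitaryGroup (Fin 2) ℂ :=
  ⟨!![0, 1; 1, 0], by
    rw [Matrix.mem_unitaryGroup_iff]
    ext i j
    fin_cases i <;> fin_cases j <;> simp [Matrix.mul_apply, Fin.sum_univ_two]⟩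

/-- The Pauli matrix `Y`. -/
noncomputable def pauliY : Matrix.unitaryGroup (Fin 2) ℂ :=
  ⟨!![0, -Complex.I; Complex.I, 0], by
    rw [Matrix.mem_unitaryGroup_iff]
    ext i j
    fin_cases i <;> fin_cases j <;> simp [Matrix.mul_apply, Fin.sum_univ_two]⟩

/-- The Pauli matrix `Z`. -/
noncomputable def pauliZ : Matrix.unitaryGroup (Fin 2) ℂ :=
  ⟨!![1, 0; 0, -1], by
    rw [Matrix.mem_unitaryGroup_iff]
    ext i j
    fin_cases i <;> fin_cases j <;> simp [Matrix.mul_apply, Fin.sum_univ_two]⟩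

/-- The group `P_1` generated by `X`, `Y`, `Z`. -/
noncomputable def P1 : Subgroup (Matrix.unitaryGroup (Fin 2) ℂ) :=
  Subgroup.closure {pauliX, pauliY, pauliZ}

/-- `V_d = (ℂ²)^{⊗d}`, in the basis of the `e_{x_1} ⊗ ⋯ ⊗ e_{x_d}`, `x_i ∈ {0, 1}`. -/
abbrev V (d : ℕ) : Type := (Fin d → Fin 2) → ℂ

lemma tens_mul (d : ℕ) (g h : Fin d → Matrix (Fin 2) (Fin 2) ℂ) :
    (Matrix.of fun x y : Fin d → Fin 2 => ∏ i, g i (x i) (y i)) *
      (Matrix.of fun x y : Fin d → Fin 2 => ∏ i, h i (x i) (y i)) =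
      Matrix.of fun x y : Fin d → Fin 2 => ∏ i, (g i * h i) (x i) (y i) := by
  ext x z
  rw [Matrix.mul_apply]
  simp only [Matrix.of_apply, ← Finset.prod_mul_distrib, Matrix.mul_apply]
  rw [Fintype.prod_sum]

lemma tens_one (d : ℕ) : (Matrix.of fun x y : Fin d → Fin 2 =>
    ∏ i : Fin d, (1 : Matrix (Fin 2) (Fin 2) ℂ) (x i) (y i)) = 1 := by
  ext x y
  rw [Matrix.of_apply, Matrix.one_apply]
  by_cases h : x = y
  · subst h
    simp
  · rw [if_neg h]
    obtain ⟨i, hi⟩ := Function.ne_iff.1 h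
    exact Finset.prod_eq_zero (Finset.mem_univ i) (Matrix.one_apply_ne hi)

lemma tens_star (d : ℕ) (g : Fin d → Matrix (Fin 2) (Fin 2) ℂ) :
    star (Matrix.of fun x y : Fin d → Fin 2 => ∏ i, g i (x i) (y i)) =
      Matrix.of fun x y : Fin d → Fin 2 => ∏ i, (star (g i)) (x i) (y i) := by
  ext x y
  rw [Matrix.star_apply, Matrix.of_apply, Matrix.of_apply, star_prod]
  rfl

/-- The natural action `g_1 ⊗ ⋯ ⊗ g_d` of a tuple of `2 × 2` unitary matrices on `V_d`. -/
noncomputable def tens (d : ℕ) : (Fin d → Matrix.unitaryGroup (Fin 2) ℂ) →*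
    Matrix.unitaryGroup (Fin d → Fin 2) ℂ where
  toFun g := ⟨Matrix.of fun x y => ∏ i, (g i : Matrix (Fin 2) (Fin 2) ℂ) (x i) (y i), by
    rw [Matrix.mem_unitaryGroup_iff, tens_star, tens_mul, ← tens_one d]
    congr 1
    funext x y
    refine Finset.prod_congr rfl fun i _ => ?_
    rw [Matrix.mem_unitaryGroup_iff.1 (g i).2]⟩
  map_one' := Subtype.ext (tens_one d)
  map_mul' g h := Subtype.ext (tens_mul d _ _).symm

/-- The Pauli group `P_d`, the image of `P_1 × ⋯ × P_1`. -/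
noncomputable def PauliGroup (d : ℕ) : Subgroup (Matrix.unitaryGroup (Fin d → Fin 2) ℂ) :=
  (Subgroup.pi Set.univ fun _ => P1).map (tens d)

/-- The Clifford group: the normalizer of the Pauli group in the unitary group of `V_d`. -/
noncomputable def CliffordGroup (d : ℕ) : Subgroup (Matrix.unitaryGroup (Fin d → Fin 2) ℂ) :=
  Subgroup.normalizer (PauliGroup d : Set (Matrix.unitaryGroup (Fin d → Fin 2) ℂ))

/-- The stabilizer states: the vectors `U e_0^{⊗d}`, with `U` in the Clifford group. -/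
def Stab (d : ℕ) : Set (V d) :=
  {ψ | ∃ U ∈ CliffordGroup d, ψ = (U : Matrix (Fin d → Fin 2) (Fin d → Fin 2) ℂ) *ᵥ Pi.single 0 1}

/-- The stabilizer rank: the least `r` such that `T` is a linear combination of `r` stabilizer
states. -/
noncomputable def stabR {d : ℕ} (T : V d) : ℕ :=
  sInf {r | ∃ (α : Fin r → ℂ) (S : Fin r → V d), (∀ i, S i ∈ Stab d) ∧ T = ∑ i, α i • S i}

/-- The vector `v^{⊗d}`, `v = e_0 + √2 e_1`. -/
noncomputable def vPow (d : ℕ) : V d := fun x => ∏ i, ![(1 : ℂ), ((√2 : ℝ) : ℂ)] (x i)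

end Pool.Agent.E8helper15.StabRank
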