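import Pool.Agent.E8helper15.SR.Reach

set_option autoImplicit false

/-!
# Gadgets

Six copies of `v` give the vector `|00> + |01> + |10>`; `15 · 2^m` copies give every table
`(ZMod 2)^m × (ZMod 2)^m → {1, 2}`.
-/

namespace Pool.Agent.E8helper15.SR

open Finset

section

variable {V W : Type} [AddCommGroup V] [AddCommGroup W]

/-- reachable with `d` copies -/
def ReachN (d : ℕ) (F : V → ℂ) : Prop := Reach (Fin d) F

lemma ReachN.mul {d d' : ℕ} {F G : V → ℂ} (hF : ReachN d F) (hG : ReachN d' G) :
    ReachN (d + d') fun z => F z * G z :=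
  (Reach.mul hF hG).relabel finSumFinEquiv

lemma ReachN.mono {d d' : ℕ} (h : d ≤ d') {F : V → ℂ} (hF : ReachN d F) : ReachN d' F := by
  obtain ⟨k, rfl⟩ := Nat.exists_eq_add_of_le h
  have := hF.mul (Reach.one (V := V) (ι := Fin k))
  simpa using this

lemma ReachN.smul {d : ℕ} {F : V → ℂ} (h : ReachN d F) (t : ℂ) : ReachN d fun z => t * F z :=
  Reach.smul h t

lemma ReachN.comp {d : ℕ} {F : W → ℂ} (h : ReachN d F) (f : V →+ W) (w : W) :
    ReachN d fun z => F (f z + w) :=
  Reach.comp h f w

lemma ReachN.comp' {d : ℕ} {F : W → ℂ} (h : ReachN d F) (f : V →+ W) :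
    ReachN d fun z => F (f z) := by
  have := ReachN.comp h f 0
  simpa using this

lemma ReachN.sum [Fintype W] {d : ℕ} {F : V × W → ℂ} (h : ReachN d F) :
    ReachN d fun z => ∑ w : W, F (z, w) :=
  Reach.sum h

lemma ReachN.prod {κ : Type} (S : Finset κ) (d : ℕ) (F : κ → V → ℂ)
    (h : ∀ k ∈ S, ReachN d (F k)) : ReachN (d * S.card) fun z => ∏ k ∈ S, F k z := by
  classical
  induction S using Finset.induction_on with
  | empty =>
    rw [Finset.card_empty, mul_zero]
    simp only [Finset.prod_empty]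
    exact Reach.one (V := V) (ι := Fin 0)
  | insert k S hk ih =>
    simp only [Finset.prod_insert hk]
    rw [Finset.card_insert_of_notMem hk, mul_add, mul_one, add_comm]
    exact (h k (Finset.mem_insert_self _ _)).mul (ih fun j hj => h j (Finset.mem_insert_of_mem hj))

end

/-- the vector `(1, 1, 1, u)` -/
noncomputable def hu (u : ℂ) (p : ZMod 2 × ZMod 2) : ℂ := if p.1 = 1 ∧ p.2 = 1 then u else 1

lemma sqrt_ne : ((√2 : ℝ) : ℂ) ≠ 0 := by
  have h1 : (0 : ℝ) < √2 := by positivity
  exact_mod_cast h1.ne'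

lemma sqrt_mul : ((√2 : ℝ) : ℂ) * ((√2 : ℝ) : ℂ) = 2 := by
  rw [← Complex.ofReal_mul, Real.mul_self_sqrt (by norm_num)]
  norm_num

/-- three copies of `v` give `(1, 1, 1, 2)` -/
lemma reach_hu2 : ReachN 3 (hu 2) := by
  have h1 : ReachN 1 (fun p : ZMod 2 × ZMod 2 => v1 p.1) :=
    ReachN.comp' (W := ZMod 2) Reach.basic (AddMonoidHom.fst (ZMod 2) (ZMod 2))
  have h2 : ReachN 1 (fun p : ZMod 2 × ZMod 2 => v1 p.2) :=
    ReachN.comp' (W := ZMod 2) Reach.basic (AddMonoidHom.snd (ZMod 2) (ZMod 2))
  have h3 : ReachN 1 (fun p : ZMod 2 × ZMod 2 => v1 (p.1 + p.2 + 1)) :=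
    ReachN.comp (W := ZMod 2) Reach.basic
      (AddMonoidHom.fst (ZMod 2) (ZMod 2) + AddMonoidHom.snd (ZMod 2) (ZMod 2)) 1
  have h4 := ((h1.mul h2).mul h3).smul (((√2 : ℝ) : ℂ)⁻¹)
  refine Reach.congr h4 ?_
  rintro ⟨s, t⟩
  have e1 := sqrt_ne
  have e2 := sqrt_mul
  have h11 : (1 : ZMod 2) + 1 = 0 := rfl
  rcases zmod2_cases s with rfl | rfl <;> rcases zmod2_cases t with rfl | rfl <;>
    simp [v1, hu, h11] <;> field_simp <;> linear_combination e2

/-- the Fourier transform step -/
lemma reach_step {d : ℕ} {u : ℂ} (hu1 : u ≠ 1) (h : ReachN d (hu u)) :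
    ReachN d (hu ((3 + u) / (1 - u))) := by
  have hne : 1 - u ≠ 0 := fun h0 => hu1 (by linear_combination -h0)
  -- the sum over `x, y`
  have hq1 : IsQuad (fun p : (ZMod 2 × ZMod 2) × (ZMod 2 × ZMod 2) =>
      p.1.1 * p.2.1 + p.1.2 * p.2.2 + p.1.1 * p.1.2) := by
    refine (IsQuad.add ?_ ?_).add ?_
    · exact IsQuad.mul (V := (ZMod 2 × ZMod 2) × (ZMod 2 × ZMod 2))
        { toFun := fun p => p.1.1
          map_zero' := rfl
          map_add' := fun _ _ => rfl }
        { toFun := fun p => p.2.1
          map_zero' := rfl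
          map_add' := fun _ _ => rfl }
    · exact IsQuad.mul (V := (ZMod 2 × ZMod 2) × (ZMod 2 × ZMod 2))
        { toFun := fun p => p.1.2
          map_zero' := rfl
          map_add' := fun _ _ => rfl }
        { toFun := fun p => p.2.2
          map_zero' := rfl
          map_add' := fun _ _ => rfl }
    · exact IsQuad.mul (V := (ZMod 2 × ZMod 2) × (ZMod 2 × ZMod 2))
        { toFun := fun p => p.1.1
          map_zero' := rfl
          map_add' := fun _ _ => rfl }
        { toFun := fun p => p.1.2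
          map_zero' := rfl
          map_add' := fun _ _ => rfl }
  have h2 : ReachN d (fun p : (ZMod 2 × ZMod 2) × (ZMod 2 × ZMod 2) => hu u p.2) :=
    ReachN.comp' (W := ZMod 2 × ZMod 2) h
      (AddMonoidHom.snd (ZMod 2 × ZMod 2) (ZMod 2 × ZMod 2))
  have h3 := ReachN.sum (V := ZMod 2 × ZMod 2) (W := ZMod 2 × ZMod 2) (Reach.sign h2 hq1)
  have h4 := (ReachN.comp (V := ZMod 2 × ZMod 2) h3 (AddMonoidHom.id _) (1, 1)).smul ((1 - u)⁻¹)
  refine Reach.congr h4 ?_
  rintro ⟨s, t⟩
  have h11 : (1 : ZMod 2) + 1 = 0 := rfl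
  have hsum : ∀ f : ZMod 2 × ZMod 2 → ℂ, ∑ w, f w = f (0, 0) + f (0, 1) + (f (1, 0) + f (1, 1)) := by
    intro f
    rw [Fintype.sum_prod_type]
    simp only [show (Finset.univ : Finset (ZMod 2)) = {0, 1} from rfl]
    rw [Finset.sum_pair (by decide), Finset.sum_pair (by decide), Finset.sum_pair (by decide)]
  beta_reduce
  rw [hsum]
  rcases zmod2_cases s with rfl | rfl <;> rcases zmod2_cases t with rfl | rfl <;>
    simp [hu, h11] <;> field_simp <;> ring

/-- inversion of the fourth entry -/
lemma reach_inv {d : ℕ} {u : ℂ} (hu0 : u ≠ 0) (h : ReachN d (hu u)) :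
    ReachN (d + d) (hu u⁻¹) := by
  have h1 : ReachN d (fun p : ZMod 2 × ZMod 2 => hu u (p.1, p.2 + 1)) := by
    have := ReachN.comp (V := ZMod 2 × ZMod 2) h (AddMonoidHom.id _) (0, 1)
    refine Reach.congr this ?_
    rintro ⟨s, t⟩
    simp
  have h2 : ReachN d (fun p : ZMod 2 × ZMod 2 => hu u (p.1 + 1, 1)) := by
    have := ReachN.comp (V := ZMod 2 × ZMod 2) h
      ((AddMonoidHom.inl (ZMod 2) (ZMod 2)).comp (AddMonoidHom.fst (ZMod 2) (ZMod 2))) (1, 1)
    refine Reach.congr this ?_
    rintro ⟨s, t⟩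
    simp
  refine Reach.congr ((h1.mul h2).smul u⁻¹) ?_
  rintro ⟨s, t⟩
  have h11 : (1 : ZMod 2) + 1 = 0 := rfl
  rcases zmod2_cases s with rfl | rfl <;> rcases zmod2_cases t with rfl | rfl <;>
    simp [hu, h11, hu0]

/-- six copies of `v` give `(1, 1, 1, 0)` -/
lemma reach_nand : ReachN 6 (hu 0) := by
  have h1 := reach_step (by norm_num) reach_hu2
  rw [show (3 + 2 : ℂ) / (1 - 2) = -5 by norm_num] at h1
  have h2 := reach_step (by norm_num) h1
  rw [show (3 + -5 : ℂ) / (1 - -5) = -1 / 3 by norm_num] at h2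
  have h3 := reach_inv (by norm_num) h2
  rw [show (-1 / 3 : ℂ)⁻¹ = -3 by norm_num] at h3
  have h4 := reach_step (by norm_num) h3
  rwa [show (3 + -3 : ℂ) / (1 - -3) = 0 by norm_num] at h4

section

variable {K : Type} [Fintype K] [DecidableEq K]

/-- the number of ones of `e` in `S` -/
def ones (S : Finset K) (e : K → ZMod 2) : ℕ := (S.filter fun k => e k = 1).card

omit [Fintype K] [DecidableEq K] in
lemma sum_eq_ones (S : Finset K) (e : K → ZMod 2) : ∑ k ∈ S, e k = (ones S e : ZMod 2) := by
  unfold ones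
  rw [Finset.card_filter, Nat.cast_sum]
  refine Finset.sum_congr rfl fun k _ => ?_
  rcases zmod2_cases (e k) with h | h <;> simp [h]

/-- the sum over a finite set as a homomorphism -/
def sumHom (S : Finset K) : (K → ZMod 2) →+ ZMod 2 where
  toFun e := ∑ k ∈ S, e k
  map_zero' := by simp
  map_add' e e' := by simp [Finset.sum_add_distrib]

lemma reach_atMostOne (S : Finset K) :
    ReachN (6 * S.card) fun e : K → ZMod 2 => if ones S e ≤ 1 then (1 : ℂ) else 0 := by
  classical
  induction S using Finset.induction_on with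
  | empty =>
    rw [Finset.card_empty, mul_zero]
    refine Reach.congr (Reach.one (V := K → ZMod 2) (ι := Fin 0)) fun e => ?_
    simp [ones]
  | insert k S hk ih =>
    rw [Finset.card_insert_of_notMem hk, mul_add, mul_one]
    have h1 := reach_nand.comp' (V := K → ZMod 2) ((Pi.evalAddMonoidHom (fun _ => ZMod 2) k).prod
      (sumHom S))
    refine Reach.congr (ReachN.mul ih h1) fun e => ?_
    have h2 : ((Pi.evalAddMonoidHom (fun _ => ZMod 2) k).prod (sumHom S)) e =
        (e k, (ones S e : ZMod 2)) := by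
      rw [← sum_eq_ones]
      rfl
    rw [h2]
    have h3 : ones (insert k S) e = (if e k = 1 then 1 else 0) + ones S e := by
      unfold ones
      rw [Finset.filter_insert]
      split_ifs with h
      · rw [Finset.card_insert_of_notMem (by simp [hk])]
        ring
      · ring
    rw [h3]
    rcases Nat.lt_or_ge 1 (ones S e) with h4 | h4
    · rw [if_neg (by omega), if_neg (by omega), zero_mul]
    · rw [if_pos h4, one_mul]
      interval_cases h5 : ones S e
      · rcases zmod2_cases (e k) with h | h <;> simp [h, hu]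
      · rcases zmod2_cases (e k) with h | h <;> simp [h, hu]

/-- the indicator of the unit vectors -/
lemma reach_oneHot : ReachN (6 * Fintype.card K)
    fun e : K → ZMod 2 => if ones Finset.univ e = 1 then (1 : ℂ) else 0 := by
  have h1 : ReachN 0 (fun e : K → ZMod 2 => if (fun _ : Fin 1 => ∑ k, e k + 1) =
      (0 : Fin 1 → ZMod 2) then (1 : ℂ) else 0) := by
    have := ReachN.comp (V := K → ZMod 2) (W := Fin 1 → ZMod 2) (d := 0) Reach.ind
      { toFun := fun e _ => ∑ k, e k
        map_zero' := by funext _; simp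
        map_add' := fun e e' => by funext _; simp [Finset.sum_add_distrib] } (fun _ => 1)
    exact this
  have h2 := ReachN.mul (reach_atMostOne (K := K) Finset.univ) h1
  rw [Finset.card_univ, add_zero] at h2
  refine Reach.congr h2 fun e => ?_
  have h3 : ((fun _ : Fin 1 => ∑ k, e k + 1) = (0 : Fin 1 → ZMod 2)) ↔
      (ones Finset.univ e : ZMod 2) + 1 = 0 := by
    rw [sum_eq_ones]
    constructor
    · intro h
      exact congrFun h 0
    · intro h
      funext _
      exact h
  rcases Nat.lt_or_ge 1 (ones Finset.univ e) with h4 | h4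
  · rw [if_neg (by omega), zero_mul, if_neg (by omega)]
  · rw [if_pos h4, one_mul]
    simp only [h3]
    interval_cases h5 : ones Finset.univ e
    · simp
    · simp [show (1 : ZMod 2) + 1 = 0 from rfl]

lemma ones_univ_eq_one_iff (e : K → ZMod 2) : ones Finset.univ e = 1 ↔ ∃ k, e = Pi.single k 1 := by
  unfold ones
  rw [Finset.card_eq_one]
  constructor
  · rintro ⟨k, hk⟩
    refine ⟨k, ?_⟩
    funext j
    have h1 : j ∈ Finset.univ.filter (fun k => e k = 1) ↔ j ∈ ({k} : Finset K) := by rw [hk]
    rw [Finset.mem_filter, Finset.mem_singleton] at h1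
    by_cases hj : j = k
    · subst hj
      rw [Pi.single_eq_same]
      exact (h1.2 rfl).2
    · rw [Pi.single_eq_of_ne hj]
      rcases zmod2_cases (e j) with h | h
      · exact h
      · exact absurd (h1.1 ⟨Finset.mem_univ _, h⟩) hj
  · rintro ⟨k, rfl⟩
    refine ⟨k, ?_⟩
    ext j
    rw [Finset.mem_filter, Finset.mem_singleton]
    by_cases hj : j = k
    · subst hj
      simp
    · simp [hj]

lemma sum_oneHot (g : (K → ZMod 2) → ℂ) :
    ∑ e : K → ZMod 2, (if ones Finset.univ e = 1 then (1 : ℂ) else 0) * g e =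
      ∑ k, g (Pi.single k 1) := by
  simp only [ite_mul, one_mul, zero_mul]
  rw [← Finset.sum_filter]
  symm
  refine Finset.sum_bij (fun k _ => (Pi.single k 1 : K → ZMod 2)) ?_ ?_ ?_ ?_
  · intro k _
    rw [Finset.mem_filter]
    exact ⟨Finset.mem_univ _, (ones_univ_eq_one_iff _).2 ⟨k, rfl⟩⟩
  · intro k _ k' _ h
    by_contra hne
    have := congrFun h k
    rw [Pi.single_eq_same, Pi.single_eq_of_ne hne] at this
    exact absurd this (by decide)
  · intro e he
    rw [Finset.mem_filter] at he
    obtain ⟨k, rfl⟩ := (ones_univ_eq_one_iff e).1 he.2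
    exact ⟨k, Finset.mem_univ _, rfl⟩
  · intro k _
    rfl

end

section

variable {ι : Type} [Fintype ι] [DecidableEq ι]

/-- `e ↦ ∑ e_k k` -/
def addrHom (ι : Type) [Fintype ι] [DecidableEq ι] : ((ι → ZMod 2) → ZMod 2) →+ (ι → ZMod 2) where
  toFun e := ∑ k : ι → ZMod 2, e k • k
  map_zero' := by simp
  map_add' e e' := by simp [Finset.sum_add_distrib, add_smul]

lemma addrHom_single (k : ι → ZMod 2) : addrHom ι (Pi.single k 1) = k := by
  change ∑ j : ι → ZMod 2, (Pi.single k 1 : (ι → ZMod 2) → ZMod 2) j • j = k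
  rw [Finset.sum_eq_single k]
  · simp
  · intro j _ hj
    rw [Pi.single_eq_of_ne hj, zero_smul]
  · intro h
    exact absurd (Finset.mem_univ _) h

lemma zmod2_add_eq_zero {κ : Type} (x y : κ → ZMod 2) : x + y = 0 ↔ x = y := by
  constructor
  · intro h
    funext k
    have := congrFun h k
    rw [Pi.add_apply, Pi.zero_apply] at this
    revert this
    generalize x k = a
    generalize y k = b
    revert a b
    decide
  · rintro rfl
    funext k
    rw [Pi.add_apply, Pi.zero_apply]
    generalize x k = a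
    revert a
    decide

/-- every table with values in `{1, 2}` is reachable with `15 · 2^m` copies -/
theorem reach_table (A : (ι → ZMod 2) × (ι → ZMod 2) → Bool) :
    ReachN (15 * 2 ^ Fintype.card ι)
      fun z : (ι → ZMod 2) × (ι → ZMod 2) => if A z then (2 : ℂ) else 1 := by
  classical
  let K := ι → ZMod 2
  have hK : Fintype.card K = 2 ^ Fintype.card ι := by
    change Fintype.card (ι → ZMod 2) = _
    rw [Fintype.card_fun, ZMod.card]
  let V0 := (K → ZMod 2) × (K → ZMod 2)
  -- the two one-hot indicators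
  have h1 : ReachN (6 * Fintype.card K) fun p : V0 =>
      if ones Finset.univ p.1 = 1 then (1 : ℂ) else 0 :=
    (reach_oneHot (K := K)).comp' (V := V0) (AddMonoidHom.fst _ _)
  have h2 : ReachN (6 * Fintype.card K) fun p : V0 =>
      if ones Finset.univ p.2 = 1 then (1 : ℂ) else 0 :=
    (reach_oneHot (K := K)).comp' (V := V0) (AddMonoidHom.snd _ _)
  -- the weights
  let row : K → ((K → ZMod 2) →+ ZMod 2) := fun a => sumHom (Finset.univ.filter fun b => A (a, b))
  have h3 : ReachN (3 * Fintype.card K) fun p : V0 =>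
      ∏ a : K, hu 2 (p.1 a, row a p.2) := by
    have := ReachN.prod (V := V0) (Finset.univ (α := K)) 3 (fun a p => hu 2 (p.1 a, row a p.2))
      (fun a _ => by
        have := reach_hu2.comp' (V := V0) (((Pi.evalAddMonoidHom (fun _ => ZMod 2) a).comp
          (AddMonoidHom.fst (K → ZMod 2) (K → ZMod 2))).prod
          ((row a).comp (AddMonoidHom.snd (K → ZMod 2) (K → ZMod 2))))
        exact this)
    rwa [Finset.card_univ] at this
  have h4 := (h1.mul h2).mul h3
  -- the push-forward
  have h5 : ReachN 0 fun p : (K × K) × V0 =>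
      (if p.1.1 + addrHom ι p.2.1 = 0 then (1 : ℂ) else 0) := by
    have := ReachN.comp' (V := (K × K) × V0) (W := ι → ZMod 2) (d := 0) Reach.ind
      ((AddMonoidHom.fst K K).comp (AddMonoidHom.fst (K × K) V0) +
        ((addrHom ι).comp ((AddMonoidHom.fst (K → ZMod 2) (K → ZMod 2)).comp
          (AddMonoidHom.snd (K × K) V0))))
    exact this
  have h6 : ReachN 0 fun p : (K × K) × V0 =>
      (if p.1.2 + addrHom ι p.2.2 = 0 then (1 : ℂ) else 0) := by
    have := ReachN.comp' (V := (K × K) × V0) (W := ι → ZMod 2) (d := 0) Reach.ind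
      ((AddMonoidHom.snd K K).comp (AddMonoidHom.fst (K × K) V0) +
        ((addrHom ι).comp ((AddMonoidHom.snd (K → ZMod 2) (K → ZMod 2)).comp
          (AddMonoidHom.snd (K × K) V0))))
    exact this
  have h7 := h4.comp' (V := (K × K) × V0) (AddMonoidHom.snd (K × K) V0)
  have h8 := ReachN.sum ((h5.mul h6).mul h7)
  have hcard : 0 + 0 + (6 * Fintype.card K + 6 * Fintype.card K + 3 * Fintype.card K) =
      15 * 2 ^ Fintype.card ι := by
    rw [hK]
    ring
  rw [hcard] at h8
  refine Reach.congr h8 ?_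
  rintro ⟨z, z'⟩
  beta_reduce
  rw [Fintype.sum_prod_type]
  -- collapse the sums
  have e1 : ∀ e e' : K → ZMod 2,
      ((if z + addrHom ι e = 0 then (1 : ℂ) else 0) * (if z' + addrHom ι e' = 0 then (1 : ℂ) else 0) *
        ((if ones Finset.univ e = 1 then (1 : ℂ) else 0) *
          (if ones Finset.univ e' = 1 then (1 : ℂ) else 0) * ∏ a : K, hu 2 (e a, row a e'))) =
      (if ones Finset.univ e' = 1 then (1 : ℂ) else 0) * ((if ones Finset.univ e = 1 then (1 : ℂ) else 0) *
        ((if z + addrHom ι e = 0 then (1 : ℂ) else 0) * (if z' + addrHom ι e' = 0 then (1 : ℂ) else 0) *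
          ∏ a : K, hu 2 (e a, row a e'))) := by
    intro e e'
    ring
  calc _ = ∑ e : K → ZMod 2, ∑ e' : K → ZMod 2,
        (if ones Finset.univ e' = 1 then (1 : ℂ) else 0) *
        ((if ones Finset.univ e = 1 then (1 : ℂ) else 0) *
        ((if z + addrHom ι e = 0 then (1 : ℂ) else 0) * (if z' + addrHom ι e' = 0 then (1 : ℂ) else 0) *
          ∏ a : K, hu 2 (e a, row a e'))) :=
        Finset.sum_congr rfl fun e _ => Finset.sum_congr rfl fun e' _ => e1 e e'
    _ = ∑ e : K → ZMod 2, ∑ k' : K, ((if ones Finset.univ e = 1 then (1 : ℂ) else 0) *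
        ((if z + addrHom ι e = 0 then (1 : ℂ) else 0) *
          (if z' + addrHom ι (Pi.single k' 1) = 0 then (1 : ℂ) else 0) *
          ∏ a : K, hu 2 (e a, row a (Pi.single k' 1)))) :=
        Finset.sum_congr rfl fun e _ => sum_oneHot _
    _ = ∑ k' : K, ∑ k : K, ((if z + addrHom ι (Pi.single k 1) = 0 then (1 : ℂ) else 0) *
          (if z' + addrHom ι (Pi.single k' 1) = 0 then (1 : ℂ) else 0) *
          ∏ a : K, hu 2 ((Pi.single k 1 : K → ZMod 2) a, row a (Pi.single k' 1))) := by
        rw [Finset.sum_comm]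
        exact Finset.sum_congr rfl fun k' _ => sum_oneHot _
    _ = ∏ a : K, hu 2 ((Pi.single z 1 : K → ZMod 2) a, row a (Pi.single z' 1)) := by
        simp only [addrHom_single, zmod2_add_eq_zero]
        rw [Finset.sum_eq_single z', Finset.sum_eq_single z]
        · simp
        · intro k _ hk
          rw [if_neg (Ne.symm hk), zero_mul, zero_mul]
        · intro h
          exact absurd (Finset.mem_univ _) h
        · intro k' _ hk'
          refine Finset.sum_eq_zero fun k _ => ?_
          rw [if_neg (Ne.symm hk'), mul_zero, zero_mul]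
        · intro h
          exact absurd (Finset.mem_univ _) h
    _ = if A (z, z') then (2 : ℂ) else 1 := by
        rw [Finset.prod_eq_single z]
        · have h9 : row z (Pi.single z' 1) = if A (z, z') then 1 else 0 := by
            change ∑ b ∈ Finset.univ.filter (fun b => A (z, b)), (Pi.single z' 1 : K → ZMod 2) b = _
            rw [Finset.sum_filter, Finset.sum_eq_single z']
            · rw [Pi.single_eq_same]
            · intro b _ hb
              rw [Pi.single_eq_of_ne hb]
              simp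
            · intro h
              exact absurd (Finset.mem_univ _) h
          rw [h9, Pi.single_eq_same]
          by_cases hA : A (z, z')
          · simp [hA, hu]
          · simp [hA, hu]
        · intro a _ ha
          rw [Pi.single_eq_of_ne ha]
          simp [hu]
        · intro h
          exact absurd (Finset.mem_univ _) h

end

end Pool.Agent.E8helper15.SR
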