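import Pool.Agent.E8helper15.SR.Count
import Pool.Agent.E8helper15.SR.Gadget
import Pool.Agent.E8helper15.SR.Defs

/-!
# The stabilizer rank of `v^{⊗d}` grows super-linearly: the proof
-/

set_option autoImplicit false

namespace Pool.Agent.E8helper15.StabRank

open Matrix Filter Topology

open Pool.Agent.E8helper15.SR

/-- the elements of `P_1` -/
lemma P1_form (g : Matrix.unitaryGroup (Fin 2) ℂ) (hg : g ∈ P1) :
    ∃ (a b : ZMod 2) (c : ℂ), c ^ 4 = 1 ∧
      ∀ s t : ZMod 2, (g : Matrix (Fin 2) (Fin 2) ℂ) s t =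
        if t = s + a then c * sg (b * s) else 0 := by
  induction hg using Subgroup.closure_induction with
  | mem x hx =>
    rcases hx with rfl | rfl | rfl
    · refine ⟨1, 0, 1, by norm_num, fun s t => ?_⟩
      rcases zmod2_cases s with rfl | rfl <;> rcases zmod2_cases t with rfl | rfl <;>
        simp [pauliX, show (1 : ZMod 2) + 1 = 0 from rfl] <;> rfl
    · refine ⟨1, 1, -Complex.I, by rw [neg_pow, Complex.I_pow_four]; norm_num, fun s t => ?_⟩
      rcases zmod2_cases s with rfl | rfl <;> rcases zmod2_cases t with rfl | rfl <;>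
        simp [pauliY, show (1 : ZMod 2) + 1 = 0 from rfl] <;> rfl
    · refine ⟨0, 1, 1, by norm_num, fun s t => ?_⟩
      rcases zmod2_cases s with rfl | rfl <;> rcases zmod2_cases t with rfl | rfl <;>
        simp [pauliZ] <;> rfl
  | one =>
    refine ⟨0, 0, 1, by norm_num, fun s t => ?_⟩
    change (if s = t then (1 : ℂ) else 0) = _
    rcases zmod2_cases s with rfl | rfl <;> rcases zmod2_cases t with rfl | rfl <;> simp
  | mul x y _ _ hx hy =>
    obtain ⟨a, b, c, hc, hx⟩ := hx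
    obtain ⟨a', b', c', hc', hy⟩ := hy
    refine ⟨a + a', b + b', c * c' * sg (b' * a), ?_, fun s t => ?_⟩
    · rw [mul_pow, mul_pow, hc, hc', sg_pow4]; ring
    · have h1 : ((x * y : Matrix.unitaryGroup (Fin 2) ℂ) : Matrix (Fin 2) (Fin 2) ℂ) s t =
          ∑ u : ZMod 2, (x : Matrix (Fin 2) (Fin 2) ℂ) s u * (y : Matrix (Fin 2) (Fin 2) ℂ) u t :=
        rfl
      rw [h1, Finset.sum_eq_single (s + a)]
      · rw [hx, hy, if_pos rfl, ← add_assoc]
        by_cases ht : t = s + a + a'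
        · rw [if_pos ht, if_pos ht, mul_add, add_mul, sg_add, sg_add]
          ring
        · rw [if_neg ht, if_neg ht, mul_zero]
      · intro u _ hu
        rw [hx, if_neg hu, zero_mul]
      · intro h
        exact absurd (Finset.mem_univ _) h
  | inv x _ hx =>
    obtain ⟨a, b, c, hc, hx⟩ := hx
    refine ⟨a, b, (starRingEnd ℂ) c * sg (b * a), ?_, fun s t => ?_⟩
    · rw [mul_pow, ← map_pow, hc, sg_pow4, map_one, one_mul]
    · have h1 : ((x⁻¹ : Matrix.unitaryGroup (Fin 2) ℂ) : Matrix (Fin 2) (Fin 2) ℂ) s t =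
          (starRingEnd ℂ) ((x : Matrix (Fin 2) (Fin 2) ℂ) t s) := rfl
      rw [h1, hx]
      have h2 : ∀ s t a : ZMod 2, s = t + a ↔ t = s + a := by decide
      by_cases ht : t = s + a
      · rw [if_pos ht, if_pos ((h2 _ _ _).2 ht), map_mul, ht, mul_add, sg_add]
        have h3 : ∀ r : ZMod 2, (starRingEnd ℂ) (sg r) = sg r := by
          intro r
          rcases zmod2_cases r with rfl | rfl <;> simp
        rw [map_mul, h3, h3]
        ring
      · rw [if_neg ht, if_neg (fun h => ht ((h2 _ _ _).1 h)), map_zero]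

/-- the elements of `P_d` are Pauli operators -/
lemma pauli_form {d : ℕ} (M : Matrix.unitaryGroup (Fin d → Fin 2) ℂ) (hM : M ∈ PauliGroup d) :
    ∃ (a : Fin d → ZMod 2) (b : (Fin d → ZMod 2) →+ ZMod 2) (c : ℂ), c ^ 4 = 1 ∧
      ∀ (f : (Fin d → ZMod 2) → ℂ) (x : Fin d → ZMod 2),
        ((M : Matrix (Fin d → Fin 2) (Fin d → Fin 2) ℂ) *ᵥ f) x = c * sg (b x) * f (x + a) := by
  obtain ⟨g, hg, rfl⟩ := hM
  choose a b c hc h using fun i => P1_form (g i) (hg i (Set.mem_univ i))
  refine ⟨a, { toFun := fun x => ∑ i, b i * x i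
               map_zero' := by simp
               map_add' := fun x y => by simp [mul_add, Finset.sum_add_distrib] }, ∏ i, c i, ?_,
    fun f x => ?_⟩
  · rw [← Finset.prod_pow]
    exact Finset.prod_eq_one fun i _ => hc i
  · have hsg : ∀ S : Finset (Fin d), sg (∑ i ∈ S, b i * x i) = ∏ i ∈ S, sg (b i * x i) := by
      classical
      intro S
      induction S using Finset.induction_on with
      | empty => simp
      | insert i S hi ih => rw [Finset.sum_insert hi, Finset.prod_insert hi, sg_add, ih]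
    change ∑ y : Fin d → ZMod 2, (∏ i, (g i : Matrix (Fin 2) (Fin 2) ℂ) (x i) (y i)) * f y =
      (∏ i, c i) * sg (∑ i, b i * x i) * f (x + a)
    rw [Finset.sum_eq_single (x + a)]
    · rw [hsg, ← Finset.prod_mul_distrib]
      congr 1
      refine Finset.prod_congr rfl fun i _ => ?_
      rw [h]
      exact if_pos rfl
    · intro y _ hy
      obtain ⟨i, hi⟩ := Function.ne_iff.1 hy
      rw [Finset.prod_eq_zero (Finset.mem_univ i), zero_mul]
      rw [h]
      exact if_neg hi
    · intro h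
      exact absurd (Finset.mem_univ _) h

/-- `Z` on the qubit `i` -/
noncomputable def zOn {d : ℕ} (i : Fin d) : Matrix.unitaryGroup (Fin d → Fin 2) ℂ :=
  tens d (Pi.mulSingle i pauliZ)

lemma zOn_mem {d : ℕ} (i : Fin d) : zOn i ∈ PauliGroup d := by
  refine ⟨Pi.mulSingle i pauliZ, ?_, rfl⟩
  intro j _
  by_cases hj : j = i
  · subst hj
    rw [Pi.mulSingle_eq_same]
    exact Subgroup.subset_closure (by simp)
  · rw [Pi.mulSingle_eq_of_ne hj]
    exact Subgroup.one_mem _

lemma zOn_apply {d : ℕ} (i : Fin d) (f : V d) (x : Fin d → Fin 2) :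
    ((zOn i : Matrix (Fin d → Fin 2) (Fin d → Fin 2) ℂ) *ᵥ f) x =
      (if x i = 0 then 1 else -1) * f x := by
  change ∑ y : Fin d → Fin 2, (∏ j, ((Pi.mulSingle i pauliZ : Fin d →
    Matrix.unitaryGroup (Fin 2) ℂ) j : Matrix (Fin 2) (Fin 2) ℂ) (x j) (y j)) * f y = _
  rw [Finset.sum_eq_single x]
  · congr 1
    rw [Finset.prod_eq_single i]
    · rw [Pi.mulSingle_eq_same]
      generalize x i = t
      fin_cases t <;> simp [pauliZ]
    · intro j _ hj
      rw [Pi.mulSingle_eq_of_ne hj]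
      simp
    · intro h
      exact absurd (Finset.mem_univ _) h
  · intro y _ hy
    obtain ⟨j, hj⟩ := Function.ne_iff.1 hy
    rw [Finset.prod_eq_zero (Finset.mem_univ j), zero_mul]
    by_cases hji : j = i
    · subst hji
      rw [Pi.mulSingle_eq_same]
      revert hj
      generalize x j = s
      generalize y j = t
      fin_cases s <;> fin_cases t <;> simp [pauliZ]
    · rw [Pi.mulSingle_eq_of_ne hji]
      simp only [OneMemClass.coe_one]
      exact Matrix.one_apply_ne (Ne.symm hj)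
  · intro h
    exact absurd (Finset.mem_univ _) h

/-- Stabilizer states are stabilizer vectors in the relaxed sense. -/
lemma isStab_of_mem {d : ℕ} {ψ : V d} (hψ : ψ ∈ Stab d) : IsStab (V := Fin d → ZMod 2) ψ := by
  obtain ⟨U, hU, hψ⟩ := hψ
  intro χ hχ
  let Um : Matrix (Fin d → Fin 2) (Fin d → Fin 2) ℂ := U
  let Ui : Matrix (Fin d → Fin 2) (Fin d → Fin 2) ℂ := (U⁻¹ : Matrix.unitaryGroup (Fin d → Fin 2) ℂ)
  have hUU : Um * Ui = 1 := congrArg Subtype.val (mul_inv_cancel U)
  have hUU' : Ui * Um = 1 := congrArg Subtype.val (inv_mul_cancel U)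
  let χ' : V d := χ
  let ω : V d := Ui *ᵥ χ'
  have hz : ∀ (i : Fin d) (x : Fin d → Fin 2), (if x i = 0 then (1 : ℂ) else -1) * ω x = ω x := by
    intro i x
    have hM : U * zOn i * U⁻¹ ∈ PauliGroup d := (hU (zOn i)).1 (zOn_mem i)
    obtain ⟨a, b, c, hc, hf⟩ := pauli_form _ hM
    let M : Matrix (Fin d → Fin 2) (Fin d → Fin 2) ℂ :=
      (U * zOn i * U⁻¹ : Matrix.unitaryGroup (Fin d → Fin 2) ℂ)
    let zm : Matrix (Fin d → Fin 2) (Fin d → Fin 2) ℂ := zOn i
    have hMe : M = Um * zm * Ui := rfl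
    have hψM : M *ᵥ ψ = ψ := by
      rw [hψ, hMe]
      change (Um * zm * Ui) *ᵥ (Um *ᵥ Pi.single 0 1) = Um *ᵥ Pi.single 0 1
      rw [Matrix.mulVec_mulVec, Matrix.mul_assoc, hUU', Matrix.mul_one, ← Matrix.mulVec_mulVec]
      congr 1
      funext y
      change ((zOn i : Matrix (Fin d → Fin 2) (Fin d → Fin 2) ℂ) *ᵥ Pi.single 0 1) y = _
      rw [zOn_apply]
      by_cases hy : y = 0
      · subst hy
        simp
      · rw [Pi.single_eq_of_ne hy, mul_zero]
    have hχM : M *ᵥ χ' = χ' := by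
      have h1 := hχ (wEquiv a b c (ne_zero_of_pow4 hc)) ⟨a, b, c, hc, wEquiv_isW _ _ _ _⟩ (by
        funext y
        exact ((wEquiv_isW a b c (ne_zero_of_pow4 hc) ψ y).trans (hf ψ y).symm).trans
          (congrFun hψM y))
      funext y
      exact (hf χ y).trans ((wEquiv_isW a b c (ne_zero_of_pow4 hc) χ y).symm.trans
        (congrFun h1 y))
    have h3 : zm *ᵥ ω = ω := by
      change zm *ᵥ (Ui *ᵥ χ') = Ui *ᵥ χ'
      conv_rhs => rw [← hχM, hMe]
      rw [Matrix.mulVec_mulVec, Matrix.mulVec_mulVec]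
      congr 1
      rw [Matrix.mul_assoc Um, ← Matrix.mul_assoc Ui, hUU', Matrix.one_mul]
    have h4 := congrFun h3 x
    change ((zOn i : Matrix (Fin d → Fin 2) (Fin d → Fin 2) ℂ) *ᵥ ω) x = ω x at h4
    rwa [zOn_apply] at h4
  have hω : ω = ω 0 • (Pi.single 0 1 : V d) := by
    funext x
    rw [Pi.smul_apply, smul_eq_mul]
    by_cases hx : x = 0
    · subst hx
      rw [Pi.single_eq_same, mul_one]
    · rw [Pi.single_eq_of_ne hx, mul_zero]
      obtain ⟨i, hi⟩ := Function.ne_iff.1 hx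
      have h1 := hz i x
      rw [if_neg (show ¬ x i = 0 from hi)] at h1
      have h2 : (2 : ℂ) * ω x = 0 := by linear_combination -h1
      simpa using h2
  refine ⟨ω 0, ?_⟩
  have h5 : χ' = Um *ᵥ ω := by
    change χ' = Um *ᵥ (Ui *ᵥ χ')
    rw [Matrix.mulVec_mulVec, hUU, Matrix.one_mulVec]
  change χ' = ω 0 • ψ
  rw [h5, hψ]
  conv_lhs => rw [hω]
  rw [Matrix.mulVec_smul]

/-- `X` on the qubits `i` with `x i ≠ 0` -/
noncomputable def xOn {d : ℕ} (x : Fin d → Fin 2) : Matrix.unitaryGroup (Fin d → Fin 2) ℂ :=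
  tens d fun i => if x i = 0 then 1 else pauliX

lemma basis_mem {d : ℕ} (x : Fin d → Fin 2) : (Pi.single x 1 : V d) ∈ Stab d := by
  refine ⟨xOn x, ?_, ?_⟩
  · apply Subgroup.le_normalizer
    refine ⟨fun i => if x i = 0 then 1 else pauliX, ?_, rfl⟩
    intro j _
    beta_reduce
    split_ifs
    · exact Subgroup.one_mem _
    · exact Subgroup.subset_closure (by simp)
  · funext y
    rw [Matrix.mulVec_single_one]
    change _ = ∏ j, ((if x j = 0 then 1 else pauliX : Matrix.unitaryGroup (Fin 2) ℂ) :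
      Matrix (Fin 2) (Fin 2) ℂ) (y j) 0
    have h0 : ∀ s t : Fin 2, ((if s = 0 then 1 else pauliX : Matrix.unitaryGroup (Fin 2) ℂ) :
      Matrix (Fin 2) (Fin 2) ℂ) t 0 = if t = s then 1 else 0 := by
      intro s t
      fin_cases s <;> fin_cases t <;> simp [pauliX]
    by_cases hy : y = x
    · subst hy
      rw [Pi.single_eq_same, Finset.prod_eq_one]
      intro i _
      rw [h0, if_pos rfl]
    · rw [Pi.single_eq_of_ne hy]
      obtain ⟨i, hi⟩ := Function.ne_iff.1 hy
      rw [Finset.prod_eq_zero (Finset.mem_univ i)]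
      rw [h0, if_neg hi]

/-- every vector is a combination of stabilizer states -/
lemma stabR_spec {d : ℕ} (T : V d) :
    ∃ (α : Fin (stabR T) → ℂ) (S : Fin (stabR T) → V d), (∀ i, S i ∈ Stab d) ∧
      T = ∑ i, α i • S i := by
  have hne : {r | ∃ (α : Fin r → ℂ) (S : Fin r → V d), (∀ i, S i ∈ Stab d) ∧
      T = ∑ i, α i • S i}.Nonempty := by
    let e := Fintype.equivFin (Fin d → Fin 2)
    refine ⟨Fintype.card (Fin d → Fin 2), fun i => T (e.symm i), fun i => Pi.single (e.symm i) 1,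
      fun i => basis_mem _, ?_⟩
    rw [Fintype.sum_equiv e.symm (fun i => T (e.symm i) • (Pi.single (e.symm i) 1 : V d))
      (fun x => T x • (Pi.single x 1 : V d)) (fun i => rfl)]
    funext x
    rw [Finset.sum_apply, Finset.sum_eq_single x]
    · simp
    · intro y _ hy
      rw [Pi.smul_apply, Pi.single_eq_of_ne (Ne.symm hy), smul_zero]
    · intro h
      exact absurd (Finset.mem_univ _) h
  exact Nat.sInf_mem hne

/-- the combinatorial form of the bound -/
theorem key_bound (m d : ℕ) (h : 15 * 2 ^ m ≤ d) :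
    4 ^ m ≤ stabR (vPow d) * ((4 * m + 2) ^ 2 + 1) := by
  obtain ⟨α, S, hS, hT⟩ := stabR_spec (vPow d)
  have hv : (vv : (Fin d → ZMod 2) → ℂ) = ∑ i, α i • (S i : (Fin d → ZMod 2) → ℂ) := by
    rw [← hT]
    funext x
    unfold vv vPow
    refine Finset.prod_congr rfl fun i _ => ?_
    generalize x i = t
    rcases zmod2_cases t with rfl | rfl
    · simp [v1]
    · simp [v1]
  have hc := counting (ι := Fin m) (stabR (vPow d)) (fun A => by
    have h1 : ReachN (V := (Fin m → ZMod 2) × (Fin m → ZMod 2)) d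
        (fun z => if A z then (2 : ℂ) else 1) := by
      refine ReachN.mono ?_ (reach_table (ι := Fin m) A)
      rwa [Fintype.card_fin]
    obtain ⟨β, χ, hχ, hF⟩ := Reach.spec h1 α S (fun i => isStab_of_mem (hS i)) hv
    exact ⟨β, χ, hχ, hF⟩)
  rwa [Fintype.card_fin] at hc

lemma stabR_pos (d : ℕ) : 1 ≤ stabR (vPow d) := by
  obtain ⟨α, S, hS, hT⟩ := stabR_spec (vPow d)
  by_contra h
  have h0 : stabR (vPow d) = 0 := by omega
  have h1 : vPow d 0 = 0 := by
    rw [hT, Finset.sum_apply]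
    refine Finset.sum_eq_zero fun i _ => ?_
    exact absurd i.2 (by omega)
  have h2 : vPow d 0 = 1 := by simp [vPow]
  rw [h2] at h1
  exact one_ne_zero h1

/-- the quantitative bound -/
theorem quantitative (d : ℕ) (hd : 2 ≤ d) :
    (d : ℝ) ^ 2 / (75600 * Real.log d ^ 2) ≤ stabR (vPow d) := by
  have hd' : (2 : ℝ) ≤ d := by exact_mod_cast hd
  have hlog2 : (2 : ℝ) / 3 < Real.log 2 := by
    have := Real.log_two_gt_d9
    linarith
  have hlogd : Real.log 2 ≤ Real.log d := Real.log_le_log (by norm_num) hd'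
  set L := Real.log d with hL
  have hL0 : (2 : ℝ) / 3 < L := lt_of_lt_of_le hlog2 hlogd
  have hL2 : (4 : ℝ) / 9 < L ^ 2 := by nlinarith
  rw [div_le_iff₀ (by positivity)]
  have hr1 : (1 : ℝ) ≤ stabR (vPow d) := by exact_mod_cast stabR_pos d
  rcases Nat.lt_or_ge d 15 with h15 | h15
  · have h1 : (d : ℝ) ≤ 15 := by exact_mod_cast h15.le
    have h2 : (d : ℝ) ^ 2 ≤ 225 := by nlinarith
    nlinarith
  · -- the main case
    set m := Nat.log 2 (d / 15) with hm
    have h1 : 2 ^ m ≤ d / 15 := Nat.pow_log_le_self 2 (by omega)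
    have h2 : d / 15 < 2 ^ (m + 1) := Nat.lt_pow_succ_log_self (by norm_num) _
    have h3 : 15 * 2 ^ m ≤ d := by omega
    have h4 : d < 30 * 2 ^ m := by
      rw [pow_succ] at h2
      omega
    have h5 := key_bound m d h3
    have h6 : (d : ℝ) < 30 * 2 ^ m := by exact_mod_cast h4
    have h7 : ((4 : ℝ) ^ m) ≤ stabR (vPow d) * ((4 * m + 2) ^ 2 + 1) := by exact_mod_cast h5
    have h8 : (d : ℝ) ^ 2 ≤ 900 * 4 ^ m := by
      have : (4 : ℝ) ^ m = (2 ^ m) ^ 2 := by rw [← pow_mul, mul_comm, pow_mul]; norm_num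
      rw [this]
      nlinarith [pow_pos (show (0 : ℝ) < 2 by norm_num) m]
    have h9 : (m : ℝ) * (2 / 3) ≤ L := by
      have h10 : ((2 : ℝ) ^ m) ≤ d := by
        have : 2 ^ m ≤ d := by omega
        exact_mod_cast this
      have h11 := Real.log_le_log (by positivity) h10
      rw [Real.log_pow] at h11
      have h12 : (m : ℝ) * (2 / 3) ≤ m * Real.log 2 :=
        mul_le_mul_of_nonneg_left hlog2.le (Nat.cast_nonneg m)
      linarith
    have h10 : (m : ℝ) ≤ 3 / 2 * L := by linarith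
    have h11 : (4 * (m : ℝ) + 2) ^ 2 + 1 ≤ 84 * L ^ 2 := by
      have h12 : 0 ≤ 4 * (m : ℝ) + 2 := by positivity
      have h13 : 4 * (m : ℝ) + 2 ≤ 9 * L := by linarith
      nlinarith
    calc (d : ℝ) ^ 2 ≤ 900 * 4 ^ m := h8
      _ ≤ 900 * (stabR (vPow d) * ((4 * m + 2) ^ 2 + 1)) := by linarith
      _ ≤ 900 * (stabR (vPow d) * (84 * L ^ 2)) := by gcongr
      _ = stabR (vPow d) * (75600 * L ^ 2) := by ring

end Pool.Agent.E8helper15.StabRank
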