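import Pool.Agent.E8helper15.SR.Core

set_option autoImplicit false

/-!
# Vectors reachable from copies of `v` by stabilizer operations
-/

namespace Pool.Agent.E8helper15.SR

open Finset

section

variable {V W : Type} [AddCommGroup V] [AddCommGroup W]

/-- pulling back along a surjective homomorphism -/
lemma IsStab.pullback {φ : W → ℂ} (h : IsStab φ) (p : V →+ W) (hp : Function.Surjective p) :
    IsStab fun x => φ (p x) := by
  rw [isStab_iff] at h ⊢
  intro ψ hψ
  have h1 : ∀ x k, p k = 0 → ψ (x + k) = ψ x := by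
    intro x k hk
    have := hψ k 0 1 (by norm_num) (by
      intro x
      rw [map_add, hk, add_zero]
      simp) x
    simpa using this
  obtain ⟨t, ht⟩ := h (fun w => ψ (Function.surjInv hp w)) (by
    intro a b c hc hφ w
    obtain ⟨a', rfl⟩ := hp a
    have h2 := hψ a' (b.comp p) c hc (by
      intro x
      rw [map_add]
      exact hφ (p x)) (Function.surjInv hp w)
    have h3 : (b.comp p) (Function.surjInv hp w) = b w := by
      rw [AddMonoidHom.comp_apply, Function.surjInv_eq hp]
    rw [h3] at h2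
    rw [← h2]
    have h4 : ψ (Function.surjInv hp (w + p a')) = ψ (Function.surjInv hp w + a') := by
      have h5 := h1 (Function.surjInv hp w + a')
        (Function.surjInv hp (w + p a') - (Function.surjInv hp w + a')) (by
          rw [map_sub, map_add, Function.surjInv_eq hp, Function.surjInv_eq hp, sub_self])
      rw [← h5]
      congr 1
      abel
    rw [h4])
  refine ⟨t, ?_⟩
  funext x
  have h2 := congrFun ht (p x)
  simp only [Pi.smul_apply, smul_eq_mul] at h2 ⊢
  rw [← h2]
  have h5 := h1 x (Function.surjInv hp (p x) - x) (by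
    rw [map_sub, Function.surjInv_eq hp, sub_self])
  rw [← h5]
  congr 1
  abel

lemma IsQuad.comp {q : W → ZMod 2} (hq : IsQuad q) (f : V →+ W) (c : W) :
    IsQuad fun x => q (f x + c) := by
  intro a
  obtain ⟨b, s, h⟩ := hq (f a)
  refine ⟨b.comp f, b c + s, fun x => ?_⟩
  have := h (f x + c)
  rw [map_add b] at this
  change q (f (x + a) + c) = q (f x + c) + b (f x) + (b c + s)
  rw [map_add, show f x + f a + c = f x + c + f a by abel, this]
  ring

lemma IsQuad.comp' {q : W → ZMod 2} (hq : IsQuad q) (f : V →+ W) :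
    IsQuad fun x => q (f x) := by
  simpa using hq.comp f 0

lemma IsQuad.add {q q' : V → ZMod 2} (hq : IsQuad q) (hq' : IsQuad q') :
    IsQuad fun x => q x + q' x := by
  intro a
  obtain ⟨b, s, h⟩ := hq a
  obtain ⟨b', s', h'⟩ := hq' a
  refine ⟨b + b', s + s', fun x => ?_⟩
  change q (x + a) + q' (x + a) = q x + q' x + (b x + b' x) + (s + s')
  rw [h, h']
  ring

lemma IsQuad.const (s : ZMod 2) : IsQuad fun _ : V => s :=
  fun _ => ⟨0, 0, fun _ => by simp⟩

lemma IsQuad.mul (f g : V →+ ZMod 2) : IsQuad fun x => f x * g x := by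
  intro a
  refine ⟨(AddMonoidHom.mulRight (g a)).comp f + (AddMonoidHom.mulLeft (f a)).comp g, f a * g a,
    fun x => ?_⟩
  simp only [map_add, AddMonoidHom.add_apply, AddMonoidHom.comp_apply, AddMonoidHom.coe_mulRight,
    AddMonoidHom.coe_mulLeft]
  ring

lemma IsQuad.sum {κ : Type*} (S : Finset κ) (q : κ → V → ZMod 2) (h : ∀ k ∈ S, IsQuad (q k)) :
    IsQuad fun x => ∑ k ∈ S, q k x := by
  classical
  induction S using Finset.induction_on with
  | empty => simpa using IsQuad.const 0
  | insert k S hk ih =>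
    simp only [Finset.sum_insert hk]
    exact (h k (Finset.mem_insert_self _ _)).add (ih fun j hj => h j (Finset.mem_insert_of_mem hj))

/-- one copy of `v`, in coordinates -/
noncomputable def v1 (t : ZMod 2) : ℂ := if t = 0 then 1 else (√2 : ℝ)

/-- the coordinates of the tensor power of `v` -/
noncomputable def vv {ι : Type} [Fintype ι] (x : ι → ZMod 2) : ℂ := ∏ i, v1 (x i)

/-- `F` is obtained from copies of `v` indexed by `ι` by a stabilizer operation. -/
def Reach (ι : Type) [Fintype ι] [DecidableEq ι] (F : V → ℂ) : Prop :=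
  ∃ (Y : Type) (_ : AddCommGroup Y) (_ : Fintype Y) (q : V × ((ι → ZMod 2) × Y) → ZMod 2) (c : ℂ),
    IsQuad q ∧ ∀ z, F z = c * ∑ x : ι → ZMod 2, ∑ y : Y, sg (q (z, (x, y))) * vv x

variable {ι κ : Type} [Fintype ι] [Fintype κ] [DecidableEq ι] [DecidableEq κ]

/-- If the tensor power of `v` is a combination of `r` stabilizer vectors, so is every reachable
vector. -/
lemma Reach.spec [Finite V] {F : V → ℂ} (hF : Reach ι F) {r : ℕ}
    (α : Fin r → ℂ) (φ : Fin r → ((ι → ZMod 2) → ℂ)) (hφ : ∀ i, IsStab (φ i))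
    (hv : (vv : (ι → ZMod 2) → ℂ) = ∑ i, α i • φ i) :
    ∃ (β : Fin r → ℂ) (χ : Fin r → (V → ℂ)), (∀ i, IsStab (χ i)) ∧ F = ∑ i, β i • χ i := by
  obtain ⟨Y, _, _, q, c, hq, hF⟩ := hF
  refine ⟨fun i => c * α i, fun i z => ∑ p : (ι → ZMod 2) × Y, sg (q (z, p)) * φ i p.1, ?_, ?_⟩
  · intro i
    have h1 : IsStab fun p : V × ((ι → ZMod 2) × Y) => φ i p.2.1 := by
      refine (hφ i).pullback ((AddMonoidHom.fst (ι → ZMod 2) Y).comp
        (AddMonoidHom.snd V ((ι → ZMod 2) × Y))) ?_
      intro x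
      exact ⟨(0, (x, 0)), rfl⟩
    exact (h1.diag hq).sum
  · funext z
    rw [hF z, Finset.sum_apply]
    simp only [Pi.smul_apply, smul_eq_mul, Finset.mul_sum, Fintype.sum_prod_type]
    rw [Finset.sum_comm (s := Finset.univ (α := Fin r))]
    refine Finset.sum_congr rfl fun x _ => ?_
    rw [Finset.sum_comm (s := Finset.univ (α := Fin r))]
    refine Finset.sum_congr rfl fun y _ => ?_
    rw [hv, Finset.sum_apply, Finset.mul_sum, Finset.mul_sum]
    refine Finset.sum_congr rfl fun i _ => ?_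
    simp only [Pi.smul_apply, smul_eq_mul]
    ring

lemma Reach.smul {F : V → ℂ} (h : Reach ι F) (t : ℂ) : Reach ι fun z => t * F z := by
  obtain ⟨Y, i1, i2, q, c, hq, hF⟩ := h
  exact ⟨Y, i1, i2, q, t * c, hq, fun z => by beta_reduce; rw [hF z]; ring⟩

lemma Reach.comp {F : W → ℂ} (h : Reach ι F) (f : V →+ W) (w : W) :
    Reach ι fun z => F (f z + w) := by
  obtain ⟨Y, i1, i2, q, c, hq, hF⟩ := h
  refine ⟨Y, i1, i2, fun p => q (f p.1 + w, p.2), c, ?_, fun z => by beta_reduce; rw [hF]⟩
  have := hq.comp (AddMonoidHom.prodMap f (AddMonoidHom.id ((ι → ZMod 2) × Y))) (w, 0)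
  have e : (fun x : V × ((ι → ZMod 2) × Y) =>
      q ((AddMonoidHom.prodMap f (AddMonoidHom.id ((ι → ZMod 2) × Y))) x + (w, 0))) =
      fun p => q (f p.1 + w, p.2) := by
    funext p
    change q (f p.1 + w, p.2 + 0) = q (f p.1 + w, p.2)
    rw [add_zero]
  rwa [e] at this

lemma Reach.sign {F : V → ℂ} (h : Reach ι F) {q0 : V → ZMod 2} (hq0 : IsQuad q0) :
    Reach ι fun z => sg (q0 z) * F z := by
  obtain ⟨Y, i1, i2, q, c, hq, hF⟩ := h
  refine ⟨Y, i1, i2, fun p => q0 p.1 + q p, c, ?_, fun z => ?_⟩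
  · exact (hq0.comp' (AddMonoidHom.fst V ((ι → ZMod 2) × Y))).add hq
  · beta_reduce
    rw [hF]
    simp only [sg_add, Finset.mul_sum]
    refine Finset.sum_congr rfl fun x _ => Finset.sum_congr rfl fun y _ => ?_
    ring

lemma Reach.sum [Fintype W] {F : V × W → ℂ} (h : Reach ι F) :
    Reach ι fun z => ∑ w : W, F (z, w) := by
  obtain ⟨Y, i1, i2, q, c, hq, hF⟩ := h
  refine ⟨W × Y, inferInstance, inferInstance, fun p => q ((p.1, p.2.2.1), (p.2.1, p.2.2.2)), c, ?_,
    fun z => ?_⟩
  · exact hq.comp' (V := V × ((ι → ZMod 2) × (W × Y)))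
      { toFun := fun p => ((p.1, p.2.2.1), (p.2.1, p.2.2.2))
        map_zero' := rfl
        map_add' := fun _ _ => rfl }
  · simp only [hF, Fintype.sum_prod_type]
    rw [← Finset.mul_sum, Finset.sum_comm]

lemma Reach.mul {F G : V → ℂ} (hF : Reach ι F) (hG : Reach κ G) :
    Reach (ι ⊕ κ) fun z => F z * G z := by
  obtain ⟨Y, i1, i2, q, c, hq, hF⟩ := hF
  obtain ⟨Y', i1', i2', q', c', hq', hG⟩ := hG
  refine ⟨Y × Y', inferInstance, inferInstance, fun p =>
    q (p.1, (fun i => p.2.1 (Sum.inl i), p.2.2.1)) +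
    q' (p.1, (fun i => p.2.1 (Sum.inr i), p.2.2.2)), c * c', ?_, fun z => ?_⟩
  · refine (hq.comp' (V := V × ((ι ⊕ κ → ZMod 2) × (Y × Y')))
      { toFun := fun p => (p.1, (fun i => p.2.1 (Sum.inl i), p.2.2.1))
        map_zero' := rfl
        map_add' := fun _ _ => rfl }).add (hq'.comp' (V := V × ((ι ⊕ κ → ZMod 2) × (Y × Y')))
      { toFun := fun p => (p.1, (fun i => p.2.1 (Sum.inr i), p.2.2.2))
        map_zero' := rfl
        map_add' := fun _ _ => rfl })
  · beta_reduce
    rw [hF, hG]
    have e1 : ∀ x : ι ⊕ κ → ZMod 2, vv x = vv (fun i => x (Sum.inl i)) * vv fun i => x (Sum.inr i) := by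
      intro x
      unfold vv
      rw [Fintype.prod_sum_type]
    rw [← Fintype.sum_equiv (Equiv.sumArrowEquivProdArrow ι κ (ZMod 2)).symm
      (fun p : (ι → ZMod 2) × (κ → ZMod 2) => ∑ y : Y × Y', sg (q (z, (p.1, y.1)) +
        q' (z, (p.2, y.2))) * (vv p.1 * vv p.2)) _ (fun p => by
          refine Finset.sum_congr rfl fun y _ => ?_
          rw [e1]
          rfl)]
    rw [Fintype.sum_prod_type]
    simp only [Fintype.sum_prod_type]
    rw [show ∀ a b : ℂ, c * a * (c' * b) = c * c' * (a * b) by intros; ring]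
    congr 1
    rw [Finset.sum_mul_sum]
    refine Finset.sum_congr rfl fun x _ => Finset.sum_congr rfl fun x' _ => ?_
    rw [Finset.sum_mul_sum]
    refine Finset.sum_congr rfl fun y _ => Finset.sum_congr rfl fun y' _ => ?_
    rw [sg_add]
    ring

lemma Reach.congr {F G : V → ℂ} (h : Reach ι F) (hFG : ∀ z, F z = G z) : Reach ι G := by
  have : F = G := funext hFG
  rwa [← this]

lemma Reach.relabel {F : V → ℂ} (h : Reach ι F) (e : ι ≃ κ) : Reach κ F := by
  obtain ⟨Y, i1, i2, q, c, hq, hF⟩ := h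
  refine ⟨Y, i1, i2, fun p => q (p.1, (fun i => p.2.1 (e i), p.2.2)), c, ?_, fun z => ?_⟩
  · exact hq.comp' (V := V × ((κ → ZMod 2) × Y))
      { toFun := fun p => (p.1, (fun i => p.2.1 (e i), p.2.2))
        map_zero' := rfl
        map_add' := fun _ _ => rfl }
  · rw [hF]
    congr 1
    refine (Fintype.sum_equiv (Equiv.arrowCongr e (Equiv.refl (ZMod 2))).symm _ _ (fun x => ?_)).symm
    refine Finset.sum_congr rfl fun y _ => ?_
    have e1 : vv ((Equiv.arrowCongr e (Equiv.refl (ZMod 2))).symm x) = vv x := by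
      unfold vv
      exact Fintype.prod_equiv e _ _ (fun i => rfl)
    rw [e1]
    rfl

lemma v1_sum : ∑ t : ZMod 2, v1 t = 1 + (√2 : ℝ) := by
  rw [show (Finset.univ : Finset (ZMod 2)) = {0, 1} from rfl, Finset.sum_pair (by decide)]
  simp [v1]

lemma Reach.one : Reach ι (fun _ : V => 1) := by
  have hs : ∑ x : ι → ZMod 2, vv x = (1 + (√2 : ℝ)) ^ Fintype.card ι := by
    unfold vv
    rw [← Fintype.prod_sum (f := fun (_ : ι) (t : ZMod 2) => v1 t)]
    simp only [v1_sum, Finset.prod_const, Finset.card_univ]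
  have hne : (1 + ((√2 : ℝ) : ℂ)) ^ Fintype.card ι ≠ 0 := by
    apply pow_ne_zero
    have h1 : (0 : ℝ) < 1 + √2 := by positivity
    have h2 : ((1 + √2 : ℝ) : ℂ) ≠ 0 := by exact_mod_cast h1.ne'
    simpa using h2
  refine ⟨Fin 0 → ZMod 2, inferInstance, inferInstance, fun _ => 0,
    ((1 + ((√2 : ℝ) : ℂ)) ^ Fintype.card ι)⁻¹, IsQuad.const 0, fun z => ?_⟩
  simp only [sg_zero, one_mul, Finset.sum_const, Finset.card_univ]
  rw [show Fintype.card (Fin 0 → ZMod 2) = 1 by simp]
  simp only [one_smul]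
  rw [hs, inv_mul_cancel₀ hne]

/-- one copy of `v` gives the vector `v` -/
lemma Reach.basic : Reach (Fin 1) v1 := by
  refine ⟨ZMod 2, inferInstance, inferInstance, fun p => p.2.2 * (p.2.1 0 + p.1), 2⁻¹, ?_,
    fun z => ?_⟩
  · have := IsQuad.mul (V := ZMod 2 × ((Fin 1 → ZMod 2) × ZMod 2))
      { toFun := fun p => p.2.2
        map_zero' := rfl
        map_add' := fun _ _ => rfl }
      { toFun := fun p => p.2.1 0 + p.1
        map_zero' := rfl
        map_add' := fun a b => by
          change (a.2.1 0 + b.2.1 0) + (a.1 + b.1) = _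
          ring }
    exact this
  · have h1 : ∀ x : Fin 1 → ZMod 2, ∑ y : ZMod 2, sg (y * (x 0 + z)) * vv x =
        (if x 0 = z then 2 else 0) * v1 (x 0) := by
      intro x
      rw [show (Finset.univ : Finset (ZMod 2)) = {0, 1} from rfl, Finset.sum_pair (by decide)]
      have e : vv x = v1 (x 0) := by simp [vv]
      rw [e]
      rcases zmod2_cases (x 0) with h | h <;> rcases zmod2_cases z with h' | h' <;>
        rw [h, h'] <;> simp [show (1 : ZMod 2) + 1 = 0 from rfl] <;> ring
    simp only [h1]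
    rw [← Fintype.sum_equiv (Equiv.funUnique (Fin 1) (ZMod 2)).symm
      (fun t : ZMod 2 => (if t = z then (2 : ℂ) else 0) * v1 t) _ (fun t => rfl)]
    simp

/-- the indicator of zero -/
lemma Reach.ind : Reach (Fin 0) (fun w : κ → ZMod 2 => if w = 0 then (1 : ℂ) else 0) := by
  refine ⟨κ → ZMod 2, inferInstance, inferInstance, fun p => ∑ k, p.1 k * p.2.2 k,
    (2 ^ Fintype.card κ)⁻¹, ?_, fun w => ?_⟩
  · apply IsQuad.sum
    intro k _
    exact IsQuad.mul (V := (κ → ZMod 2) × ((Fin 0 → ZMod 2) × (κ → ZMod 2)))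
      { toFun := fun p => p.1 k
        map_zero' := rfl
        map_add' := fun _ _ => rfl }
      { toFun := fun p => p.2.2 k
        map_zero' := rfl
        map_add' := fun _ _ => rfl }
  · have h1 : ∀ x : Fin 0 → ZMod 2, vv x = 1 := by
      intro x
      simp [vv]
    simp only [h1, mul_one, Finset.sum_const, Finset.card_univ]
    rw [show Fintype.card (Fin 0 → ZMod 2) = 1 by simp, one_smul]
    by_cases hw : w = 0
    · subst hw
      simp
    · rw [if_neg hw]
      let b : (κ → ZMod 2) →+ ZMod 2 :=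
        { toFun := fun (y : κ → ZMod 2) => ∑ k, w k * y k
          map_zero' := by simp
          map_add' := fun y y' => by
            simp only [Pi.add_apply, mul_add, Finset.sum_add_distrib] }
      have hb : b ≠ 0 := by
        intro h
        apply hw
        funext k
        have := DFunLike.congr_fun h (Pi.single k 1)
        change ∑ j, w j * (Pi.single k 1 : κ → ZMod 2) j = 0 at this
        simpa [Pi.single_apply] using this
      have h2 : ∑ y : κ → ZMod 2, sg (∑ k, w k * y k) = 0 := sum_sg_eq_zero b hb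
      rw [h2, mul_zero]

end

end Pool.Agent.E8helper15.SR
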